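import Mathlib

set_option autoImplicit false

namespace Pool.Agent.W_MP_bc68d5_lc

open Set Filter Ordinal Cardinal

/-- The first uncountable ordinal. -/
noncomputable abbrev w1 : Ordinal.{0} := (Cardinal.aleph 1).ord

/-- Jensen's diamond, as in the frozen statement. -/
def Diamond : Prop :=
  ∃ A : Ordinal.{0} → Set Ordinal.{0}, (∀ α, A α ⊆ Set.Iio α) ∧
    ∀ X : Set Ordinal.{0}, X ⊆ Set.Iio (Cardinal.aleph 1).ord →
      ∀ C : Set Ordinal.{0}, C ⊆ Set.Iio (Cardinal.aleph 1).ord →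
        (∀ β < (Cardinal.aleph 1).ord, ∃ γ ∈ C, β ≤ γ) →
        (∀ γ < (Cardinal.aleph 1).ord, 0 < γ →
          (∀ β < γ, ∃ δ ∈ C, β < δ ∧ δ < γ) → γ ∈ C) →
        ∃ α ∈ C, X ∩ Set.Iio α = A α

theorem countable_Iio_of_lt {α : Ordinal.{0}} (h : α < w1) : (Set.Iio α).Countable := by
  rw [← Cardinal.le_aleph0_iff_set_countable, Cardinal.mk_Iio_ordinal]
  have h1 : α.card < Cardinal.aleph 1 := Cardinal.lt_ord.mp h
  have h2 : α.card ≤ ℵ₀ := by
    rw [← Order.lt_succ_iff, Cardinal.succ_aleph0]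
    exact h1
  rw [Cardinal.lift_le_aleph0]
  exact h2

theorem iSup_lt_w1 {ι : Type*} [Countable ι] {f : ι → Ordinal.{0}} (h : ∀ i, f i < w1) :
    ⨆ i, f i < w1 := by
  have : w1 = ω_ 1 := Cardinal.ord_aleph 1
  rw [this] at h ⊢
  exact Ordinal.iSup_lt_omega_one h

theorem succ_lt_w1 {α : Ordinal.{0}} (h : α < w1) : Order.succ α < w1 :=
  (Cardinal.isSuccLimit_ord (Cardinal.aleph0_le_aleph 1)).succ_lt h

theorem zero_lt_w1 : (0 : Ordinal.{0}) < w1 :=
  (Cardinal.isSuccLimit_ord (Cardinal.aleph0_le_aleph 1)).bot_lt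

theorem omega_lt_w1 : (ω : Ordinal.{0}) < w1 := by
  have : w1 = ω_ 1 := Cardinal.ord_aleph 1
  rw [this]
  exact Ordinal.omega0_lt_omega_one

/-- Diamond implies the continuum hypothesis. -/
theorem continuum_le_of_diamond (hD : Diamond) : Cardinal.continuum.{0} ≤ Cardinal.aleph.{0} 1 := by
  obtain ⟨A, hA, hA2⟩ := hD
  have key : ∀ Y : Set ℕ, ∃ α < w1, {n : ℕ | (n : Ordinal.{0}) ∈ A α} = Y := by
    intro Y
    obtain ⟨α, hα, hYα⟩ := hA2 ((fun n : ℕ => (n : Ordinal.{0})) '' Y)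
      (by
        rintro _ ⟨n, _, rfl⟩
        exact (Ordinal.natCast_lt_omega0 n).trans omega_lt_w1)
      (Set.Ico ω w1) (fun x hx => hx.2)
      (by
        intro β hβ
        exact ⟨max β ω, ⟨le_max_right _ _, max_lt hβ omega_lt_w1⟩, le_max_left _ _⟩)
      (by
        intro γ hγ h0 h
        obtain ⟨δ, hδ, _, hδγ⟩ := h 0 h0
        exact ⟨hδ.1.trans hδγ.le, hγ⟩)
    refine ⟨α, hα.2, ?_⟩
    rw [← hYα]
    ext n
    simp only [Set.mem_ofPred_eq, Set.mem_inter_iff, Set.mem_image, Set.mem_Iio]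
    constructor
    · rintro ⟨⟨m, hm, hmn⟩, _⟩
      have : m = n := by exact_mod_cast hmn
      rwa [← this]
    · intro hn
      exact ⟨⟨n, hn, rfl⟩, (Ordinal.natCast_lt_omega0 n).trans_le hα.1⟩
  have hsurj : Function.Surjective (fun a : w1.ToType =>
      {n : ℕ | (n : Ordinal.{0}) ∈ A ((Ordinal.ToType.mk.symm a : Set.Iio w1) : Ordinal.{0})}) := by
    intro Y
    obtain ⟨α, hα, h⟩ := key Y
    refine ⟨Ordinal.ToType.mk ⟨α, hα⟩, ?_⟩
    simpa using h
  have h1 := Cardinal.mk_le_of_surjective hsurj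
  rw [Cardinal.mk_toType, Cardinal.card_ord, Cardinal.mk_set, Cardinal.mk_nat,
    Cardinal.two_power_aleph0] at h1
  exact h1

section chain

variable {F : Type} [Preorder F]

/-- Diagonal upper bounds for countable chains modulo finite. -/
theorem exists_upper (bot : F) (p : Ordinal.{0} → ℕ → F) (α : Ordinal.{0}) (hα : α < w1)
    (hp : ∀ γ < α, ∀ β < γ, ∀ᶠ n in atTop, p β n ≤ p γ n) :
    ∃ q : ℕ → F, (∀ n, q n = bot ∨ ∃ β < α, q n = p β n) ∧
      ∀ β < α, ∀ᶠ n in atTop, p β n ≤ q n := by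
  classical
  have hp' : ∀ γ < α, ∀ β ≤ γ, ∀ᶠ n in atTop, p β n ≤ p γ n := by
    intro γ hγ β hβ
    rcases hβ.eq_or_lt with rfl | h
    · exact Filter.Eventually.of_forall (fun n => le_rfl)
    · exact hp γ hγ β h
  rcases eq_or_ne α 0 with rfl | h0
  · refine ⟨fun _ => bot, fun n => Or.inl rfl, ?_⟩
    intro β hβ
    exact absurd hβ (not_lt_bot)
  have hne : (Set.Iio α).Nonempty := ⟨0, pos_iff_ne_zero.mpr h0⟩
  obtain ⟨e, he⟩ := (countable_Iio_of_lt hα).exists_eq_range hne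
  have heα : ∀ i, e i < α := by
    intro i
    have : e i ∈ Set.Iio α := by rw [he]; exact ⟨i, rfl⟩
    exact this
  let Q : ℕ → ℕ → Prop := fun n k => ∀ i ≤ k, ∀ i' ≤ k, e i ≤ e i' → p (e i) n ≤ p (e i') n
  have hQ0 : ∀ n, Q n 0 := by
    intro n i hi i' hi' _
    have h1 : i = 0 := by omega
    have h2 : i' = 0 := by omega
    rw [h1, h2]
  have hQk : ∀ k, ∀ᶠ n in atTop, Q n k := by
    intro k
    have h1 : ∀ i ∈ Set.Iic k, ∀ᶠ n in atTop, ∀ i' ∈ Set.Iic k, e i ≤ e i' →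
        p (e i) n ≤ p (e i') n := by
      intro i _
      rw [Filter.eventually_all_finite (Set.finite_Iic k)]
      intro i' _
      by_cases hii : e i ≤ e i'
      · filter_upwards [hp' (e i') (heα i') (e i) hii] with n hn _ using hn
      · exact Filter.Eventually.of_forall (fun n h => absurd h hii)
    rw [← Filter.eventually_all_finite (Set.finite_Iic k)] at h1
    filter_upwards [h1] with n hn i hi i' hi' h
    exact hn i hi i' hi' h
  let K : ℕ → ℕ := fun n => Nat.findGreatest (Q n) n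
  have hK : ∀ n, Q n (K n) := fun n => Nat.findGreatest_spec (P := Q n) (Nat.zero_le n) (hQ0 n)
  have hmax : ∀ n, ∃ i ≤ K n, ∀ i' ≤ K n, e i' ≤ e i := by
    intro n
    obtain ⟨i, hi, hi2⟩ := Finset.exists_max_image (Finset.range (K n + 1)) e ⟨0, by simp⟩
    refine ⟨i, by simpa [Nat.lt_succ_iff] using hi, ?_⟩
    intro i' hi'
    exact hi2 i' (by simpa [Nat.lt_succ_iff] using hi')
  choose m hm1 hm2 using hmax
  refine ⟨fun n => p (e (m n)) n, fun n => Or.inr ⟨e (m n), heα _, rfl⟩, ?_⟩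
  intro β hβ
  have : β ∈ range e := by rw [← he]; exact hβ
  obtain ⟨i, rfl⟩ := this
  filter_upwards [hQk i, Filter.eventually_ge_atTop i] with n hn hin
  have hiK : i ≤ K n := Nat.le_findGreatest hin hn
  exact hK n i hiK (m n) (hm1 n) (hm2 n i hiK)

/-- Under diamond there is an increasing chain (modulo finite) of length `ω₁` in `F ^ ℕ` which
meets every sequence of dense subsets of `F`. -/
theorem exists_chain (hD : Diamond) (bot : F) (hF : Cardinal.mk F ≤ Cardinal.aleph 1) :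
    ∃ p : Ordinal.{0} → ℕ → F,
      (∀ γ < w1, ∀ β ≤ γ, ∀ᶠ n in atTop, p β n ≤ p γ n) ∧
      ∀ D : ℕ → Set F, (∀ n x, ∃ y ∈ D n, x ≤ y) → ∃ α < w1, ∀ n, p α n ∈ D n := by
  classical
  obtain ⟨A, hA, hA2⟩ := hD
  -- enumeration of ℕ × F
  obtain ⟨th, psi, hpsi1, hpsi2⟩ : ∃ (th : Ordinal.{0} → ℕ × F) (psi : ℕ × F → Ordinal.{0}),
      (∀ x, psi x < w1) ∧ ∀ x, th (psi x) = x := by
    have hcard : Cardinal.mk (ℕ × F) ≤ Cardinal.mk (w1.ToType) := by
      rw [Cardinal.mk_toType, Cardinal.card_ord, Cardinal.mk_prod]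
      simp only [Cardinal.mk_nat, Cardinal.lift_id]
      exact Cardinal.mul_le_of_le (Cardinal.aleph0_le_aleph 1) (Cardinal.aleph0_le_aleph 1) hF
    obtain ⟨f⟩ := hcard
    refine ⟨fun ξ => if h : ξ < w1 then
      (if h2 : ∃ x, f x = Ordinal.ToType.mk ⟨ξ, Set.mem_Iio.mpr h⟩ then h2.choose else (0, bot))
        else (0, bot),
      fun x => ((Ordinal.ToType.mk.symm (f x) : Set.Iio w1) : Ordinal.{0}), ?_, ?_⟩
    · intro x
      exact (Ordinal.ToType.mk.symm (f x)).2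
    · intro x
      have h1 : ((Ordinal.ToType.mk.symm (f x) : Set.Iio w1) : Ordinal.{0}) < w1 :=
        (Ordinal.ToType.mk.symm (f x)).2
      dsimp only
      rw [dif_pos h1]
      have h2 : Ordinal.ToType.mk ⟨((Ordinal.ToType.mk.symm (f x) : Set.Iio w1) : Ordinal.{0}),
          Set.mem_Iio.mpr h1⟩ = f x := by simp
      rw [h2]
      have h3 : ∃ y, f y = f x := ⟨x, rfl⟩
      rw [dif_pos h3]
      exact f.injective h3.choose_spec
  let G : Ordinal.{0} → ℕ → Set F := fun α n => {y | ∃ ξ ∈ A α, th ξ = (n, y)}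
  let qexists : (α : Ordinal.{0}) → ((β : Ordinal.{0}) → β < α → ℕ → F) → (ℕ → F) → Prop :=
    fun α ih q => (∀ n, q n = bot ∨ ∃ β, ∃ hb : β < α, q n = ih β hb n) ∧
      ∀ β, ∀ hb : β < α, ∀ᶠ n in atTop, ih β hb n ≤ q n
  let q0 : (α : Ordinal.{0}) → ((β : Ordinal.{0}) → β < α → ℕ → F) → ℕ → F :=
    fun α ih => if h : ∃ q : ℕ → F, qexists α ih q then h.choose else fun _ => bot
  let step : (α : Ordinal.{0}) → ((β : Ordinal.{0}) → β < α → ℕ → F) → ℕ → F :=
    fun α ih n => if h : ∃ y ∈ G α n, q0 α ih n ≤ y then h.choose else q0 α ih n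
  let p : Ordinal.{0} → ℕ → F := (wellFounded_lt (α := Ordinal.{0})).fix step
  have hp : ∀ α, p α = step α (fun β _ => p β) := by
    intro α
    exact WellFounded.fix_eq _ _ _
  have hstep : ∀ α ih n, q0 α ih n ≤ step α ih n := by
    intro α ih n
    simp only [step]
    split_ifs with h
    · exact h.choose_spec.2
    · exact le_rfl
  have hstep2 : ∀ α ih n, (∃ y ∈ G α n, q0 α ih n ≤ y) → step α ih n ∈ G α n := by
    intro α ih n h
    simp only [step]
    rw [dif_pos h]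
    exact h.choose_spec.1
  have hq0 : ∀ α ih, (∃ q : ℕ → F, qexists α ih q) → qexists α ih (q0 α ih) := by
    intro α ih h
    simp only [q0]
    rw [dif_pos h]
    exact h.choose_spec
  -- chain property
  have hchain : ∀ α < w1, ∀ β < α, ∀ᶠ n in atTop, p β n ≤ p α n := by
    intro α
    induction α using WellFoundedLT.induction with
    | ind α ih =>
      intro hα β hβ
      obtain ⟨q, hq1, hq2⟩ := exists_upper bot p α hα
        (fun γ hγ β hβ => ih γ hγ (hγ.trans hα) β hβ)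
      have hq : qexists α (fun β _ => p β) q := by
        refine ⟨?_, ?_⟩
        · intro n
          rcases hq1 n with h | ⟨β, hβ, h⟩
          · exact Or.inl h
          · exact Or.inr ⟨β, hβ, h⟩
        · intro β hβ
          exact hq2 β hβ
      have h3 := (hq0 α (fun β _ => p β) ⟨q, hq⟩).2 β hβ
      rw [hp α]
      filter_upwards [h3] with n hn
      exact hn.trans (hstep _ _ _)
  refine ⟨p, ?_, ?_⟩
  · intro γ hγ β hβ
    rcases hβ.eq_or_lt with rfl | h
    · exact Filter.Eventually.of_forall (fun n => le_rfl)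
    · exact hchain γ hγ β h
  intro D hDd
  choose tau htau1 htau2 using hDd
  let X : Set Ordinal.{0} := {ξ | ξ < w1 ∧ (th ξ).2 ∈ D (th ξ).1}
  let good : Ordinal.{0} → Prop := fun α => psi (0, bot) < α ∧ ∀ ξ < α, ∀ n,
    psi (n, tau n (th ξ).2) < α ∧ psi (0, p ξ n) < α
  let C : Set Ordinal.{0} := {α | α < w1 ∧ good α}
  obtain ⟨α, hαC, hXα⟩ := hA2 X (fun ξ hξ => hξ.1) C (fun ξ hξ => hξ.1) (by
    intro β hβ
    -- closing off
    let g : Ordinal.{0} → Ordinal.{0} := fun γ =>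
      ⨆ x : Set.Iio γ × ℕ, Order.succ (max (psi (x.2, tau x.2 (th x.1).2)) (psi (0, p x.1 x.2)))
    have hg : ∀ γ < w1, g γ < w1 := by
      intro γ hγ
      have : Countable (Set.Iio γ) := (countable_Iio_of_lt hγ).to_subtype
      apply iSup_lt_w1
      rintro ⟨ξ, n⟩
      exact succ_lt_w1 (max_lt (hpsi1 _) (hpsi1 _))
    have hg2 : ∀ γ < w1, ∀ ξ < γ, ∀ n, psi (n, tau n (th ξ).2) < g γ ∧ psi (0, p ξ n) < g γ := by
      intro γ hγ ξ hξ n
      have : Countable (Set.Iio γ) := (countable_Iio_of_lt hγ).to_subtype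
      have h1 := Ordinal.le_iSup (fun x : Set.Iio γ × ℕ =>
        Order.succ (max (psi (x.2, tau x.2 (th x.1).2)) (psi (0, p x.1 x.2)))) (⟨ξ, hξ⟩, n)
      have h2 : max (psi (n, tau n (th ξ).2)) (psi (0, p ξ n)) < g γ :=
        (Order.lt_succ _).trans_le h1
      exact ⟨(le_max_left _ _).trans_lt h2, (le_max_right _ _).trans_lt h2⟩
    let s : ℕ → Ordinal.{0} := fun i => Nat.rec (Order.succ (max β (psi (0, bot))))
      (fun _ γ => max γ (g γ)) i
    have hs0 : s 0 = Order.succ (max β (psi (0, bot))) := rfl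
    have hs1 : ∀ i, s (i + 1) = max (s i) (g (s i)) := fun i => rfl
    have hsw : ∀ i, s i < w1 := by
      intro i
      induction i with
      | zero => rw [hs0]; exact succ_lt_w1 (max_lt hβ (hpsi1 _))
      | succ i ih => rw [hs1]; exact max_lt ih (hg _ ih)
    have hle : ∀ i, s i ≤ ⨆ i, s i := fun i => Ordinal.le_iSup s i
    refine ⟨⨆ i, s i, ⟨iSup_lt_w1 hsw, ?_, ?_⟩, ?_⟩
    · refine lt_of_lt_of_le ?_ (hle 0)
      rw [hs0]
      exact (le_max_right _ _).trans_lt (Order.lt_succ _)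
    · intro ξ hξ n
      obtain ⟨i, hi⟩ := Ordinal.lt_iSup_iff.mp hξ
      have h1 := hg2 (s i) (hsw i) ξ hi n
      have h2 : g (s i) ≤ ⨆ i, s i := by
        refine le_trans ?_ (hle (i+1))
        rw [hs1]
        exact le_max_right _ _
      exact ⟨h1.1.trans_le h2, h1.2.trans_le h2⟩
    · refine le_trans ?_ (hle 0)
      rw [hs0]
      exact (le_max_left _ _).trans (Order.le_succ _))
    (by
      intro γ hγ h0 h
      refine ⟨hγ, ?_, ?_⟩
      · obtain ⟨δ, hδ, _, hδγ⟩ := h 0 h0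
        exact hδ.2.1.trans hδγ
      · intro ξ hξ n
        obtain ⟨δ, hδ, hξδ, hδγ⟩ := h ξ hξ
        have := hδ.2.2 ξ hξδ n
        exact ⟨this.1.trans hδγ, this.2.trans hδγ⟩)
  refine ⟨α, hαC.1, ?_⟩
  intro n
  obtain ⟨q, hq1, hq2⟩ := exists_upper bot p α hαC.1
        (fun γ hγ β hβ => hchain γ (hγ.trans hαC.1) β hβ)
  have hq : qexists α (fun β _ => p β) (q0 α (fun β _ => p β)) := by
    apply hq0
    refine ⟨q, ?_, ?_⟩
    · intro n
      rcases hq1 n with h | ⟨β, hβ, h⟩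
      · exact Or.inl h
      · exact Or.inr ⟨β, hβ, h⟩
    · intro β hβ
      exact hq2 β hβ
  set q' := q0 α (fun β _ => p β) with hq'
  have hxi : ∃ ξ < α, (th ξ).2 = q' n := by
    rcases hq.1 n with h | ⟨β, hβ, h⟩
    · exact ⟨psi (0, bot), hαC.2.1, by rw [hpsi2, h]⟩
    · exact ⟨psi (0, p β n), (hαC.2.2 β hβ n).2, by rw [hpsi2, h]⟩
  obtain ⟨ξ, hξ, hξq⟩ := hxi
  have hmem : ∀ y, y ∈ G α n ↔ (y ∈ D n ∧ ∃ ξ ∈ A α, th ξ = (n, y)) := by
    intro y
    constructor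
    · rintro ⟨ζ, hζ, hζ2⟩
      refine ⟨?_, ζ, hζ, hζ2⟩
      have h4 : ζ ∈ X := by
        rw [← hXα] at hζ
        exact hζ.1
      have h5 := h4.2
      rw [hζ2] at h5
      exact h5
    · rintro ⟨_, h⟩
      exact h
  have hy : tau n (q' n) ∈ G α n := by
    refine ⟨psi (n, tau n (th ξ).2), ?_, ?_⟩
    · rw [← hXα]
      refine ⟨⟨hpsi1 _, ?_⟩, (hαC.2.2 ξ hξ n).1⟩
      rw [hpsi2]
      exact htau1 _ _
    · rw [hpsi2, hξq]
  have h6 : p α n ∈ G α n := by
    rw [hp α]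
    exact hstep2 α _ n ⟨_, hy, htau2 n (q' n)⟩
  exact ((hmem _).mp h6).1

end chain

end Pool.Agent.W_MP_bc68d5_lc
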