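import Mathlib

set_option autoImplicit false

namespace Pool.Agent.W_MP_bc68d5_lc

open Set

/-- A bounded finitely additive real function on a Boolean algebra. -/
structure IsMeas {B : Type*} [BooleanAlgebra B] (ν : B → ℝ) : Prop where
  add : ∀ a b : B, Disjoint a b → ν (a ⊔ b) = ν a + ν b
  bdd : ∃ K : ℝ, ∀ a, |ν a| ≤ K

/-- The Nikodym property. -/
def Nik (B : Type*) [BooleanAlgebra B] : Prop :=
  ∀ μ : ℕ → B → ℝ, (∀ n, IsMeas (μ n)) → (∀ a, ∃ K : ℝ, ∀ n, |μ n a| ≤ K) →
    ∃ K : ℝ, ∀ n a, |μ n a| ≤ K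

section basic

variable {B : Type*} [BooleanAlgebra B] {ν : B → ℝ}

theorem IsMeas.bot (h : IsMeas ν) : ν ⊥ = 0 := by
  have := h.add ⊥ ⊥ disjoint_bot_left
  simp at this
  exact this

theorem IsMeas.sdiff (h : IsMeas ν) {a b : B} (hab : a ≤ b) : ν (b \ a) = ν b - ν a := by
  have h1 := h.add a (b \ a) disjoint_sdiff_self_right
  rw [sup_sdiff_cancel_right hab] at h1
  linarith

theorem IsMeas.inf_add_sdiff (h : IsMeas ν) (a b : B) : ν (a ⊓ b) + ν (a \ b) = ν a := by
  have h1 := h.add (a ⊓ b) (a \ b) disjoint_inf_sdiff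
  rw [sup_inf_sdiff] at h1
  linarith

theorem IsMeas.finset_sup {ι : Type*} (h : IsMeas ν) (I : Finset ι) (T : ι → B)
    (hT : (I : Set ι).PairwiseDisjoint T) : ν (I.sup T) = ∑ i ∈ I, ν (T i) := by
  classical
  induction I using Finset.induction_on with
  | empty => simp [h.bot]
  | insert a s ha ih =>
    rw [Finset.sup_insert, Finset.sum_insert ha, h.add, ih]
    · exact hT.subset (by simp)
    · rw [Finset.disjoint_sup_right]
      intro i hi
      exact hT (by simp) (by simp [hi]) (by rintro rfl; exact ha hi)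

theorem IsMeas.sum_abs_le {ι : Type*} (h : IsMeas ν) {K : ℝ} (hK : ∀ a, |ν a| ≤ K)
    (I : Finset ι) (T : ι → B)
    (hT : (I : Set ι).PairwiseDisjoint T) : ∑ i ∈ I, |ν (T i)| ≤ 2 * K := by
  classical
  rw [← Finset.sum_filter_add_sum_filter_not I (fun i => 0 ≤ ν (T i))]
  have h1 : ∑ i ∈ I with 0 ≤ ν (T i), |ν (T i)| ≤ K := by
    rw [Finset.sum_congr rfl (g := fun i => ν (T i))]
    · rw [← h.finset_sup]
      · exact (le_abs_self _).trans (hK _)
      · exact hT.subset (Finset.coe_subset.mpr (Finset.filter_subset _ _))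
    · intro i hi
      rw [Finset.mem_filter] at hi
      exact abs_of_nonneg hi.2
  have h2 : ∑ i ∈ I with ¬ 0 ≤ ν (T i), |ν (T i)| ≤ K := by
    rw [Finset.sum_congr rfl (g := fun i => - ν (T i))]
    · rw [Finset.sum_neg_distrib, ← h.finset_sup]
      · exact (neg_le_abs _).trans (hK _)
      · exact hT.subset (Finset.coe_subset.mpr (Finset.filter_subset _ _))
    · intro i hi
      rw [Finset.mem_filter] at hi
      exact abs_of_neg (not_le.mp hi.2)
  linarith

end basic

section DS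

variable {B : Type*} [BooleanAlgebra B] (μ : ℕ → B → ℝ)

/-- unboundedness below `b`. -/
def Unb (b : B) : Prop := ∀ K : ℝ, ∃ n, ∃ a ≤ b, K < |μ n a|

theorem unb_step (hμ : ∀ n, IsMeas (μ n)) (M : B → ℝ) (hM : ∀ a n, |μ n a| ≤ M a)
    (b : B) (hb : Unb μ b) (R : ℝ) :
    ∃ r : B × ℕ × B, r.1 ≤ b ∧ r.2.2 ≤ b ∧ Disjoint r.1 r.2.2 ∧ Unb μ r.2.2 ∧
      R ≤ |μ r.2.1 r.1| := by
  obtain ⟨n, a, hab, hna⟩ := hb (M b + |R|)
  have hsd := (hμ n).sdiff hab
  have hMb := hM b n
  have hR := le_abs_self R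
  have h1 : R ≤ |μ n a| := by
    have := (abs_nonneg (μ n b)).trans hMb
    linarith
  have h2 : R ≤ |μ n (b \ a)| := by
    rw [hsd]
    have : |μ n a| - |μ n b| ≤ |μ n b - μ n a| := by
      rw [abs_sub_comm]; exact abs_sub_abs_le_abs_sub _ _
    linarith
  by_cases hu : Unb μ a
  · exact ⟨(b \ a, n, a), sdiff_le, hab, disjoint_sdiff_self_left, hu, h2⟩
  · refine ⟨(a, n, b \ a), hab, sdiff_le, disjoint_sdiff_self_right, ?_, h1⟩
    unfold Unb at hu
    push Not at hu
    obtain ⟨K0, hK0⟩ := hu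
    intro K
    obtain ⟨n', a', ha', hn'⟩ := hb (K0 + K)
    refine ⟨n', a' \ a, sdiff_le_sdiff_right ha', ?_⟩
    have h3 := (hμ n').inf_add_sdiff a' a
    have h4 := hK0 n' (a' ⊓ a) inf_le_right
    have h5 : |μ n' a'| ≤ |μ n' (a' ⊓ a)| + |μ n' (a' \ a)| := by
      rw [← h3]; exact abs_add_le _ _
    linarith

theorem exists_disjoint_seq (hμ : ∀ n, IsMeas (μ n)) (M : B → ℝ) (hM : ∀ a n, |μ n a| ≤ M a)
    (hb : ¬ ∃ K : ℝ, ∀ n a, |μ n a| ≤ K) :
    ∃ (a : ℕ → B) (k : ℕ → ℕ), Pairwise (fun i j => Disjoint (a i) (a j)) ∧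
      ∀ i : ℕ, (i : ℝ) + ∑ l ∈ Finset.range i, M (a l) ≤ |μ (k i) (a i)| := by
  have htop : Unb μ (⊤ : B) := by
    intro K
    push Not at hb
    obtain ⟨n, a, h⟩ := hb K
    exact ⟨n, a, le_top, h⟩
  choose next hn using fun (b : {b : B // Unb μ b}) (R : ℝ) => unb_step μ hμ M hM b.1 b.2 R
  -- state
  let st : ℕ → {b : B // Unb μ b} × ℝ := fun i => Nat.rec (⟨⊤, htop⟩, 0)
    (fun i s => (⟨(next s.1 (i + s.2)).2.2, (hn s.1 (i + s.2)).2.2.2.1⟩,
      s.2 + M (next s.1 (i + s.2)).1)) i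
  let a : ℕ → B := fun i => (next (st i).1 (i + (st i).2)).1
  let k : ℕ → ℕ := fun i => (next (st i).1 (i + (st i).2)).2.1
  have hsucc1 : ∀ i, ((st (i+1)).1 : B) = (next (st i).1 (i + (st i).2)).2.2 := fun i => rfl
  have hsucc2 : ∀ i, (st (i+1)).2 = (st i).2 + M (a i) := fun i => rfl
  have hsum : ∀ i, (st i).2 = ∑ l ∈ Finset.range i, M (a l) := by
    intro i
    induction i with
    | zero => simp [st]
    | succ i ih => rw [hsucc2, ih, Finset.sum_range_succ]
  have hanti : Antitone (fun i => ((st i).1 : B)) := by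
    apply antitone_nat_of_succ_le
    intro i
    rw [hsucc1]
    exact (hn (st i).1 (i + (st i).2)).2.1
  have hlt : ∀ i j, i < j → Disjoint (a i) (a j) := by
    intro i j hij
    have h1 : a j ≤ (st j).1 := (hn (st j).1 (j + (st j).2)).1
    have h2 : ((st j).1 : B) ≤ (st (i+1)).1 := hanti hij
    have h3 : Disjoint (a i) ((st (i+1)).1 : B) := (hn (st i).1 (i + (st i).2)).2.2.1
    exact h3.mono_right (h1.trans h2)
  refine ⟨a, k, ?_, ?_⟩
  · intro i j hij
    rcases lt_or_gt_of_ne hij with h | h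
    · exact hlt i j h
    · exact (hlt j i h).symm
  · intro i
    rw [← hsum]
    exact (hn (st i).1 (i + (st i).2)).2.2.2.2

end DS

section SetN

/-- A bounded additive function on subsets of `ℕ` is small on an infinite subset. -/
theorem exists_small_infinite (lam : Set ℕ → ℝ) (h : IsMeas lam) (S : Set ℕ) (hS : S.Infinite) :
    ∃ S' ⊆ S, S'.Infinite ∧ ∀ T ⊆ S', |lam T| ≤ 1 := by
  by_contra hcon
  push Not at hcon
  obtain ⟨K, hK⟩ := h.bdd
  have : Infinite S := hS.to_subtype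
  obtain ⟨_⟩ := nonempty_denumerable S
  obtain ⟨e⟩ : Nonempty ((ℕ × ℕ) ≃ S) := ⟨(Denumerable.eqv (ℕ × ℕ)).trans (Denumerable.eqv S).symm⟩
  let P : ℕ → Set ℕ := fun i => range (fun j => ((e (i, j) : S) : ℕ))
  have hPinf : ∀ i, (P i).Infinite := by
    intro i
    apply infinite_range_of_injective
    intro j j' hjj
    have := e.injective (Subtype.ext hjj)
    simpa using this
  have hPS : ∀ i, P i ⊆ S := by
    rintro i _ ⟨j, rfl⟩
    exact (e (i, j)).2
  have hPd : ∀ i i', i ≠ i' → Disjoint (P i) (P i') := by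
    intro i i' hii
    rw [Set.disjoint_left]
    rintro _ ⟨j, rfl⟩ ⟨j', hj'⟩
    have := e.injective (Subtype.ext hj')
    simp at this
    exact hii this.1.symm
  choose T hTP hT using fun i => hcon (P i) (hPS i) (hPinf i)
  obtain ⟨N, hN⟩ := exists_nat_gt (2 * K)
  have h1 := h.sum_abs_le hK (Finset.range N) T (by
    intro i _ i' _ hii
    exact (hPd i i' hii).mono (hTP i) (hTP i'))
  have h2 : (N : ℝ) ≤ ∑ i ∈ Finset.range N, |lam (T i)| := by
    calc (N : ℝ) = ∑ i ∈ Finset.range N, (1 : ℝ) := by simp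
      _ ≤ _ := Finset.sum_le_sum (fun i _ => (hT i).le)
  linarith

/-- Nikodym boundedness for the full power set. -/
theorem nik_set (α : Type*) : Nik (Set α) := by
  intro μ hμ hpt
  by_contra hcon
  choose M hM using hpt
  have hM0 : ∀ a, 0 ≤ M a := fun a => (abs_nonneg _).trans (hM a 0)
  obtain ⟨a, k, hdis, hbig⟩ := exists_disjoint_seq μ hμ M hM hcon
  -- measure on subsets of ℕ
  let c : Set ℕ → Set α := fun T => ⋃ l ∈ T, a l
  have hcdis : ∀ T T' : Set ℕ, Disjoint T T' → Disjoint (c T) (c T') := by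
    intro T T' hTT
    simp only [c, Set.disjoint_iUnion_left, Set.disjoint_iUnion_right]
    intro i hi j hj
    exact hdis (by rintro rfl; exact Set.disjoint_left.mp hTT hj hi)
  have hcun : ∀ T T' : Set ℕ, c (T ∪ T') = c T ∪ c T' := by
    intro T T'
    simp only [c]
    exact Set.biUnion_union T T' a
  have hmeas : ∀ n, IsMeas (fun T => μ n (c T)) := by
    intro n
    refine ⟨?_, ?_⟩
    · intro T T' hTT
      have := (hμ n).add (c T) (c T') (hcdis T T' hTT)
      simp only [Set.sup_eq_union] at this ⊢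
      rw [hcun, this]
    · obtain ⟨K, hK⟩ := (hμ n).bdd
      exact ⟨K, fun T => hK _⟩
  -- recursion
  have hstep : ∀ S : {S : Set ℕ // S.Infinite}, ∃ S' : {S : Set ℕ // S.Infinite},
      S'.1 ⊆ S.1 ∧ (∀ x ∈ S'.1, sInf S.1 < x) ∧
        ∀ T ⊆ S'.1, |μ (k (sInf S.1)) (c T)| ≤ 1 := by
    rintro ⟨S, hS⟩
    have hinf : (S \ Set.Iic (sInf S)).Infinite := hS.sdiff (Set.finite_Iic _)
    obtain ⟨S', hS', hS'inf, hsm⟩ := exists_small_infinite _ (hmeas (k (sInf S))) _ hinf
    refine ⟨⟨S', hS'inf⟩, hS'.trans Set.sdiff_subset, ?_, hsm⟩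
    intro x hx
    have := (hS' hx).2
    simpa using this
  choose g hg1 hg2 hg3 using hstep
  let s : ℕ → {S : Set ℕ // S.Infinite} := fun r => Nat.rec ⟨Set.univ, Set.infinite_univ⟩
    (fun _ S => g S) r
  have hs : ∀ r, s (r+1) = g (s r) := fun r => rfl
  let i : ℕ → ℕ := fun r => sInf (s r).1
  have himem : ∀ r, i r ∈ (s r).1 := fun r => Nat.sInf_mem (s r).2.nonempty
  have hanti : Antitone (fun r => (s r).1) := by
    apply antitone_nat_of_succ_le
    intro r
    rw [hs]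
    exact hg1 _
  have hlt : ∀ r l, r < l → i l ∈ (s (r+1)).1 := by
    intro r l hrl
    exact (hanti hrl) (himem l)
  have hmono : StrictMono i := by
    intro r l hrl
    have := hlt r l hrl
    rw [hs] at this
    exact hg2 _ _ this
  let I : Set ℕ := range i
  have htail : ∀ r, |μ (k (i r)) (c (I ∩ Set.Ioi (i r)))| ≤ 1 := by
    intro r
    apply hg3 (s r)
    rintro _ ⟨⟨l, rfl⟩, hl⟩
    have hrl : r < l := by
      have : i r < i l := hl
      exact hmono.lt_iff_lt.mp this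
    have := hlt r l hrl
    rwa [hs] at this
  obtain ⟨r, hr⟩ := exists_nat_gt (M (c I) + 1)
  have hri : r ≤ i r := hmono.id_le r
  set n := i r with hn
  have hnI : n ∈ I := ⟨r, rfl⟩
  classical
  have hdec : c I = (c (I ∩ Set.Iio n) ∪ a n) ∪ c (I ∩ Set.Ioi n) := by
    have h1 : I = ((I ∩ Set.Iio n) ∪ {n}) ∪ (I ∩ Set.Ioi n) := by
      ext x
      simp only [Set.mem_union, Set.mem_inter_iff, Set.mem_Iio, Set.mem_singleton_iff,
        Set.mem_Ioi]
      constructor
      · intro hx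
        rcases lt_trichotomy x n with h | h | h <;> simp [hx, h]
      · rintro ((h | h) | h)
        · exact h.1
        · rw [h]; exact hnI
        · exact h.1
    have h2 : a n = c {n} := by simp [c]
    rw [h2, ← hcun, ← hcun, ← h1]
  have hd1 : Disjoint (c (I ∩ Set.Iio n) ∪ a n) (c (I ∩ Set.Ioi n)) := by
    have h2 : a n = c {n} := by simp [c]
    rw [h2, ← hcun]
    apply hcdis
    rw [Set.disjoint_left]
    rintro x (hx | hx) hx'
    · exact lt_asymm (Set.mem_Iio.mp hx.2) (Set.mem_Ioi.mp hx'.2)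
    · rw [Set.mem_singleton_iff] at hx
      rw [hx] at hx'
      exact lt_irrefl _ (Set.mem_Ioi.mp hx'.2)
  have hd2 : Disjoint (c (I ∩ Set.Iio n)) (a n) := by
    have h2 : a n = c {n} := by simp [c]
    rw [h2]
    apply hcdis
    rw [Set.disjoint_left]
    rintro x hx hx'
    rw [Set.mem_singleton_iff] at hx'
    rw [hx'] at hx
    exact lt_irrefl _ (Set.mem_Iio.mp hx.2)
  have e1 : μ (k n) (c I) = μ (k n) (c (I ∩ Set.Iio n)) + μ (k n) (a n)
      + μ (k n) (c (I ∩ Set.Ioi n)) := by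
    rw [hdec]
    have := (hμ (k n)).add _ _ hd1
    simp only [Set.sup_eq_union] at this
    rw [this]
    have := (hμ (k n)).add _ _ hd2
    simp only [Set.sup_eq_union] at this
    rw [this]
  have e2 : |μ (k n) (c (I ∩ Set.Iio n))| ≤ ∑ l ∈ Finset.range n, M (a l) := by
    have h3 : c (I ∩ Set.Iio n) = ((Finset.range n).filter (· ∈ I)).sup a := by
      rw [Finset.sup_eq_iSup]
      ext x
      simp [c, and_comm]
    rw [h3, (hμ (k n)).finset_sup]
    · refine (Finset.abs_sum_le_sum_abs _ _).trans ?_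
      refine (Finset.sum_le_sum (fun l _ => hM (a l) (k n))).trans ?_
      exact Finset.sum_le_sum_of_subset_of_nonneg (Finset.filter_subset _ _)
        (fun l _ _ => hM0 _)
    · intro l _ l' _ hll
      exact hdis hll
  have e3 := hbig n
  have e4 := htail r
  have e5 := hM (c I) (k n)
  rw [← hn] at e4
  have e6 : |μ (k n) (a n)| ≤ |μ (k n) (c I)| + |μ (k n) (c (I ∩ Set.Iio n))|
      + |μ (k n) (c (I ∩ Set.Ioi n))| := by
    have : μ (k n) (a n) = μ (k n) (c I) - μ (k n) (c (I ∩ Set.Iio n))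
      - μ (k n) (c (I ∩ Set.Ioi n)) := by rw [e1]; ring
    rw [this]
    exact (abs_sub _ _).trans (by gcongr; exact abs_sub _ _)
  have e7 : (r : ℝ) ≤ (n : ℝ) := by exact_mod_cast hri
  linarith

end SetN

end Pool.Agent.W_MP_bc68d5_lc
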