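import Mathlib
import Pool.Agent.W_MP_bc68d5_lc.Nik
import Pool.Agent.W_MP_bc68d5_lc.Diamond

set_option autoImplicit false

namespace Pool.Agent.W_MP_bc68d5_lc

open Set Filter Ordinal Cardinal

section

variable {𝓑 : Type} [BooleanAlgebra 𝓑]

open Classical in
/-- restriction of a sequence to a set of coordinates -/
noncomputable def restr (u : Set ℕ) (a : ℕ → 𝓑) : ℕ → 𝓑 := fun n => if n ∈ u then a n else ⊥

theorem restr_apply_mem {u : Set ℕ} {a : ℕ → 𝓑} {n : ℕ} (h : n ∈ u) : restr u a n = a n := by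
  simp [restr, h]

theorem restr_apply_notMem {u : Set ℕ} {a : ℕ → 𝓑} {n : ℕ} (h : n ∉ u) : restr u a n = ⊥ := by
  simp [restr, h]

theorem restr_union (u v : Set ℕ) (a : ℕ → 𝓑) : restr (u ∪ v) a = restr u a ⊔ restr v a := by
  funext n
  by_cases h1 : n ∈ u <;> by_cases h2 : n ∈ v <;> simp [restr, h1, h2]

theorem restr_disjoint {u v : Set ℕ} (h : Disjoint u v) (a b : ℕ → 𝓑) :
    Disjoint (restr u a) (restr v b) := by
  rw [Pi.disjoint_iff]
  intro n
  by_cases h1 : n ∈ u
  · have h2 : n ∉ v := Set.disjoint_left.mp h h1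
    rw [restr_apply_notMem h2]
    exact disjoint_bot_right
  · rw [restr_apply_notMem h1]
    exact disjoint_bot_left

/-- the subalgebra of the product attached to a chain -/
def bigAlg {F : Type} (alg : F → Set 𝓑) (p : Ordinal.{0} → ℕ → F)
    [Preorder F] (hmono : ∀ q r, q ≤ r → alg q ⊆ alg r)
    (hsup : ∀ q a b, a ∈ alg q → b ∈ alg q → a ⊔ b ∈ alg q)
    (hcompl : ∀ q a, a ∈ alg q → aᶜ ∈ alg q) (hbot : ∀ q, ⊥ ∈ alg q)
    (hp : ∀ γ < w1, ∀ β ≤ γ, ∀ᶠ n in atTop, p β n ≤ p γ n) : BooleanSubalgebra (ℕ → 𝓑) where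
  carrier := {a | ∃ α < w1, ∀ᶠ n in atTop, a n ∈ alg (p α n)}
  supClosed' := by
    rintro a ⟨α, hα, ha⟩ b ⟨β, hβ, hb⟩
    refine ⟨max α β, max_lt hα hβ, ?_⟩
    filter_upwards [ha, hb, hp _ (max_lt hα hβ) α (le_max_left _ _),
      hp _ (max_lt hα hβ) β (le_max_right _ _)] with n h1 h2 h3 h4
    exact hsup _ _ _ (hmono _ _ h3 h1) (hmono _ _ h4 h2)
  infClosed' := by
    rintro a ⟨α, hα, ha⟩ b ⟨β, hβ, hb⟩
    refine ⟨max α β, max_lt hα hβ, ?_⟩
    filter_upwards [ha, hb, hp _ (max_lt hα hβ) α (le_max_left _ _),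
      hp _ (max_lt hα hβ) β (le_max_right _ _)] with n h1 h2 h3 h4
    have : (a ⊓ b) n = ((a n)ᶜ ⊔ (b n)ᶜ)ᶜ := by simp
    rw [this]
    exact hcompl _ _ (hsup _ _ _ (hcompl _ _ (hmono _ _ h3 h1)) (hcompl _ _ (hmono _ _ h4 h2)))
  compl_mem' := by
    rintro a ⟨α, hα, ha⟩
    refine ⟨α, hα, ?_⟩
    filter_upwards [ha] with n h1
    exact hcompl _ _ h1
  bot_mem' := ⟨0, zero_lt_w1, Filter.Eventually.of_forall (fun n => hbot _)⟩

theorem assembly (hD : Diamond) (hN : Nik 𝓑) {F : Type} [Preorder F] (bot : F)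
    (hF : Cardinal.mk F ≤ Cardinal.aleph 1)
    (alg : F → Set 𝓑) (hmono : ∀ q r, q ≤ r → alg q ⊆ alg r)
    (hsup : ∀ q a b, a ∈ alg q → b ∈ alg q → a ⊔ b ∈ alg q)
    (hcompl : ∀ q a, a ∈ alg q → aᶜ ∈ alg q) (hbot : ∀ q, ⊥ ∈ alg q)
    (mu : ℕ → 𝓑 → ℝ) (hmu : ∀ j, IsMeas (mu j))
    (hmub : ∀ q, ∀ a ∈ alg q, ∃ K : ℝ, ∀ j, |mu j a| ≤ K)
    (hmuu : ¬ ∃ K : ℝ, ∀ j a, |mu j a| ≤ K)
    (ε : ℝ) (hε : 0 < ε)
    (hext : ∀ ν : 𝓑 → ℝ, IsMeas ν → ∀ b q, ∃ r, q ≤ r ∧ ∃ c ∈ alg r, ε * |ν b| ≤ |ν c|) :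
    ∃ (B : Type) (_ : BooleanAlgebra B), Nik B ∧
      ∃ D : ℕ → Set B, Monotone D ∧ (∀ a, ∃ n, a ∈ D n) ∧
        ∀ n, ∃ μ : ℕ → B → ℝ, (∀ k, IsMeas (μ k)) ∧
          (∀ a ∈ D n, ∃ K : ℝ, ∀ k, |μ k a| ≤ K) ∧ ¬ ∃ K : ℝ, ∀ k a, |μ k a| ≤ K := by
  classical
  obtain ⟨p, hp, hpD⟩ := exists_chain hD bot hF
  let A : BooleanSubalgebra (ℕ → 𝓑) := bigAlg alg p hmono hsup hcompl hbot hp
  have hAmem : ∀ a : ℕ → 𝓑, a ∈ A ↔ ∃ α < w1, ∀ᶠ n in atTop, a n ∈ alg (p α n) :=
    fun a => Iff.rfl
  have hAof : ∀ (a : ℕ → 𝓑) (α : Ordinal.{0}), α < w1 → (∀ n, a n ∈ alg (p α n)) →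
      ∀ u : Set ℕ, restr u a ∈ A := by
    intro a α hα h u
    refine (hAmem _).mpr ⟨α, hα, Filter.Eventually.of_forall (fun n => ?_)⟩
    by_cases hn : n ∈ u
    · rw [restr_apply_mem hn]; exact h n
    · rw [restr_apply_notMem hn]; exact hbot _
  have hAfin : ∀ (u : Finset ℕ) (a : ℕ → 𝓑), restr (u : Set ℕ) a ∈ A := by
    intro u a
    refine (hAmem _).mpr ⟨0, zero_lt_w1, ?_⟩
    obtain ⟨N, hN⟩ := u.bddAbove
    filter_upwards [Filter.eventually_gt_atTop N] with n hn
    rw [restr_apply_notMem (fun h => absurd (hN h) (not_le.mpr hn))]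
    exact hbot _
  let Sf : Finset ℕ → (ℕ → 𝓑) → A := fun u a => ⟨restr (u : Set ℕ) a, hAfin u a⟩
  have hSfu : ∀ (u v : Finset ℕ) (a : ℕ → 𝓑), Sf (u ∪ v) a = Sf u a ⊔ Sf v a := by
    intro u v a
    apply Subtype.ext
    simp only [Sf, BooleanSubalgebra.val_sup, Finset.coe_union]
    exact restr_union _ _ _
  have hdisj : ∀ x y : A, Disjoint (x : ℕ → 𝓑) (y : ℕ → 𝓑) → Disjoint x y := by
    intro x y h
    rw [disjoint_iff] at h ⊢
    apply Subtype.ext
    simpa using h
  have hdisj' : ∀ x y : A, Disjoint x y → Disjoint (x : ℕ → 𝓑) (y : ℕ → 𝓑) := by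
    intro x y h
    rw [disjoint_iff] at h ⊢
    have := congrArg (Subtype.val) h
    simpa using this
  have hSfd : ∀ (u v : Finset ℕ) (a b : ℕ → 𝓑), Disjoint u v → Disjoint (Sf u a) (Sf v b) := by
    intro u v a b huv
    apply hdisj
    apply restr_disjoint
    exact_mod_cast huv
  -- coordinate measures
  let sg : ℕ → 𝓑 → A := fun n b => Sf {n} (fun _ => b)
  have hsg : ∀ n (a : ℕ → 𝓑), Sf {n} a = sg n (a n) := by
    intro n a
    apply Subtype.ext
    funext m
    by_cases h : m = n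
    · subst h; simp [Sf, sg, restr]
    · simp [Sf, sg, restr, h]
  have hsum : ∀ (ν : A → ℝ), IsMeas ν → ∀ (u : Finset ℕ) (a : ℕ → 𝓑),
      ν (Sf u a) = ∑ n ∈ u, ν (sg n (a n)) := by
    intro ν hν u a
    induction u using Finset.induction_on with
    | empty =>
      have : Sf ∅ a = ⊥ := by
        apply Subtype.ext
        funext m
        simp [Sf, restr]
      rw [this, hν.bot]
      simp
    | insert x s hx ih =>
      rw [Finset.sum_insert hx, Finset.insert_eq, hSfu, hν.add _ _ (hSfd _ _ _ _ (by simpa using hx)),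
        ih, hsg]
  have hcoord : ∀ (ν : A → ℝ), IsMeas ν → ∀ n, IsMeas (fun b => ν (sg n b)) := by
    intro ν hν n
    refine ⟨?_, ?_⟩
    · intro a b hab
      have h1 : sg n (a ⊔ b) = sg n a ⊔ sg n b := by
        apply Subtype.ext
        funext m
        by_cases h : m = n
        · subst h; simp [Sf, sg, restr]
        · simp [Sf, sg, restr, h]
      have h2 : Disjoint (sg n a) (sg n b) := by
        apply hdisj
        rw [Pi.disjoint_iff]
        intro m
        by_cases h : m = n
        · subst h; simpa [Sf, sg, restr] using hab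
        · simp [Sf, sg, restr, h]
      rw [h1, hν.add _ _ h2]
    · obtain ⟨K, hK⟩ := hν.bdd
      exact ⟨K, fun b => hK _⟩
  refine ⟨A, inferInstance, ?_, ?_⟩
  · -- Nikodym property
    intro ν hν hpt
    by_contra hcon
    choose M hM using hpt
    -- Step 1
    have hV : ∀ n, ∃ K : ℝ, ∀ k b, |ν k (sg n b)| ≤ K := by
      intro n
      apply hN (fun k b => ν k (sg n b)) (fun k => hcoord _ (hν k) n)
      intro b
      exact ⟨M (sg n b), fun k => hM _ _⟩
    choose V hV using hV
    have hV0 : ∀ n, 0 ≤ V n := fun n => (abs_nonneg _).trans (hV n 0 ⊥)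
    have hSfV : ∀ k (u : Finset ℕ) (a : ℕ → 𝓑), |ν k (Sf u a)| ≤ ∑ n ∈ u, V n := by
      intro k u a
      rw [hsum _ (hν k)]
      exact (Finset.abs_sum_le_sum_abs _ _).trans (Finset.sum_le_sum (fun n _ => hV n k _))
    -- Step 2
    have hA' : ∃ C : ℝ, ∀ k N (a : ℕ → 𝓑), |ν k (Sf (Finset.range N) a)| ≤ C := by
      by_contra hc
      push Not at hc
      have htail : ∀ (m : ℕ) (R : ℝ), ∃ (k N : ℕ) (a : ℕ → 𝓑), m < N ∧
          R < |ν k (Sf (Finset.Ico m N) a)| := by
        intro m R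
        obtain ⟨k, N, a, h⟩ := hc (|R| + ∑ n ∈ Finset.range m, V n)
        have hmN : m < N := by
          by_contra hle
          push Not at hle
          have h1 := hSfV k (Finset.range N) a
          have h2 : ∑ n ∈ Finset.range N, V n ≤ ∑ n ∈ Finset.range m, V n :=
            Finset.sum_le_sum_of_subset_of_nonneg (Finset.range_mono hle) (fun n _ _ => hV0 n)
          have := abs_nonneg R
          linarith
        refine ⟨k, N, a, hmN, ?_⟩
        have h1 : Sf (Finset.range N) a = Sf (Finset.range m) a ⊔ Sf (Finset.Ico m N) a := by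
          rw [← hSfu]
          congr 1
          ext x
          simp
          omega
        rw [h1, (hν k).add _ _ (hSfd _ _ _ _ (by
          rw [Finset.disjoint_left]
          intro x hx hx'
          simp at hx hx'
          omega))] at h
        have h2 := hSfV k (Finset.range m) a
        have h3 := abs_add_le (ν k (Sf (Finset.range m) a)) (ν k (Sf (Finset.Ico m N) a))
        have h4 := le_abs_self R
        linarith
      choose nk nN na hn1 hn2 using htail
      let m : ℕ → ℕ := fun i => Nat.rec 0 (fun i m => nN m i) i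
      have hm1 : ∀ i : ℕ, m (i+1) = nN (m i) i := fun i => rfl
      have hmm : StrictMono m := by
        apply strictMono_nat_of_lt_succ
        intro i
        rw [hm1]
        exact hn1 _ _
      let kk : ℕ → ℕ := fun i => nk (m i) i
      let aa : ℕ → ℕ → 𝓑 := fun i => na (m i) i
      have hbig : ∀ i : ℕ, (i : ℝ) < |ν (kk i) (Sf (Finset.Ico (m i) (m (i+1))) (aa i))| := by
        intro i
        rw [hm1]
        exact hn2 (m i) i
      let idx : ℕ → ℕ := fun n =>
        @Nat.findGreatest (fun i => m i ≤ n) (fun i => Nat.decLe (m i) n) n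
      have hidx : ∀ i n, n ∈ Finset.Ico (m i) (m (i+1)) → idx n = i := by
        intro i n hn
        rw [Finset.mem_Ico] at hn
        have h1 : i ≤ n := (hmm.id_le i).trans hn.1
        have h2 : i ≤ idx n := @Nat.le_findGreatest i (fun i => m i ≤ n)
          (fun i => Nat.decLe (m i) n) n h1 hn.1
        have h3 : m (idx n) ≤ n := @Nat.findGreatest_spec i (fun i => m i ≤ n)
          (fun i => Nat.decLe (m i) n) n h1 hn.1
        by_contra hne
        have h4 : i + 1 ≤ idx n := by omega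
        have h5 := hmm.monotone h4
        omega
      let b : ℕ → 𝓑 := fun n => aa (idx n) n
      let DD : ℕ → Set F := fun n => {q | ∃ c ∈ alg q,
        ε * |ν (kk (idx n)) (sg n (b n))| ≤ |ν (kk (idx n)) (sg n c)|}
      obtain ⟨α, hα, hαD⟩ := hpD DD (by
        intro n q
        obtain ⟨r, hqr, hr⟩ := hext _ (hcoord _ (hν (kk (idx n))) n) (b n) q
        exact ⟨r, hr, hqr⟩)
      choose c hc1 hc2 using hαD
      let lam : ℕ → Set ℕ → ℝ := fun k u => ν k ⟨restr u c, hAof c α hα hc1 u⟩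
      have hlam : ∀ k, IsMeas (lam k) := by
        intro k
        refine ⟨?_, ?_⟩
        · intro u v huv
          simp only [lam]
          rw [← (hν k).add]
          · congr 1
            apply Subtype.ext
            exact restr_union _ _ _
          · apply hdisj
            exact restr_disjoint huv _ _
        · obtain ⟨K, hK⟩ := (hν k).bdd
          exact ⟨K, fun b => hK _⟩
      obtain ⟨C2, hC2⟩ := nik_set ℕ lam hlam (fun u => ⟨M _, fun k => hM _ _⟩)
      have hlam1 : ∀ k n, lam k {n} = ν k (sg n (c n)) := by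
        intro k n
        simp only [lam]
        congr 1
        apply Subtype.ext
        funext x
        by_cases h : x = n
        · subst h; simp [Sf, sg, restr]
        · simp [Sf, sg, restr, h]
      obtain ⟨i, hi⟩ := exists_nat_gt (2 * C2 / ε)
      have h1 := (hlam (kk i)).sum_abs_le (hC2 (kk i)) (Finset.Ico (m i) (m (i+1)))
        (fun n => {n}) (by
          intro x _ y _ hxy
          simpa using hxy)
      have h2 := hbig i
      rw [hsum _ (hν _)] at h2
      have h3 := Finset.abs_sum_le_sum_abs (fun n => ν (kk i) (sg n (aa i n)))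
        (Finset.Ico (m i) (m (i+1)))
      have h4 : ε * ∑ n ∈ Finset.Ico (m i) (m (i+1)), |ν (kk i) (sg n (aa i n))| ≤
          ∑ n ∈ Finset.Ico (m i) (m (i+1)), |lam (kk i) {n}| := by
        rw [Finset.mul_sum]
        apply Finset.sum_le_sum
        intro n hn
        have h5 := hc2 n
        simp only [b] at h5
        rw [hidx i n hn] at h5
        rw [hlam1]
        exact h5
      have h6 : 2 * C2 < ε * i := by
        rw [div_lt_iff₀ hε] at hi
        linarith
      have h7 : ε * i < ε * ∑ n ∈ Finset.Ico (m i) (m (i+1)), |ν (kk i) (sg n (aa i n))| := by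
        apply mul_lt_mul_of_pos_left _ hε
        linarith
      linarith
    obtain ⟨C1, hC1⟩ := hA'
    -- Step 3
    have hM0 : ∀ a, 0 ≤ M a := fun a => (abs_nonneg _).trans (hM a 0)
    obtain ⟨a, k, had, hak⟩ := exists_disjoint_seq ν hν M hM hcon
    have hamem : ∀ i, ∃ α < w1, ∀ᶠ n in atTop, (a i : ℕ → 𝓑) n ∈ alg (p α n) :=
      fun i => (hAmem _).mp (a i).2
    choose al hal1 hal2 using hamem
    let α : Ordinal.{0} := ⨆ i, al i
    have hα : α < w1 := iSup_lt_w1 hal1
    have hm : ∀ i, ∃ m ≥ i, ∀ n ≥ m, (a i : ℕ → 𝓑) n ∈ alg (p α n) := by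
      intro i
      have h1 := hp α hα (al i) (Ordinal.le_iSup al i)
      obtain ⟨m, hm⟩ := Filter.eventually_atTop.mp ((hal2 i).and h1)
      refine ⟨max m i, le_max_right _ _, ?_⟩
      intro n hn
      have := hm n ((le_max_left _ _).trans hn)
      exact hmono _ _ this.2 this.1
    choose m hmi hm using hm
    let c : Set ℕ → ℕ → 𝓑 := fun s n =>
      ((Finset.range (n+1)).filter (fun i => i ∈ s ∧ m i ≤ n)).sup (fun i => (a i : ℕ → 𝓑) n)
    have hcA : ∀ s, c s ∈ A := by
      intro s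
      refine (hAmem _).mpr ⟨α, hα, Filter.Eventually.of_forall (fun n => ?_)⟩
      simp only [c]
      apply Finset.sup_induction (p := fun x => x ∈ alg (p α n))
      · exact hbot _
      · intro x hx y hy
        exact hsup _ _ _ hx hy
      · intro i hi
        rw [Finset.mem_filter] at hi
        exact hm i n hi.2.2
    have had' : ∀ i j, i ≠ j → ∀ n, Disjoint ((a i : ℕ → 𝓑) n) ((a j : ℕ → 𝓑) n) := by
      intro i j hij n
      have := hdisj' _ _ (had hij)
      rw [Pi.disjoint_iff] at this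
      exact this n
    let lam : ℕ → Set ℕ → ℝ := fun k s => ν k ⟨c s, hcA s⟩
    have hlam : ∀ k, IsMeas (lam k) := by
      intro k
      refine ⟨?_, ?_⟩
      · intro s t hst
        simp only [lam]
        rw [← (hν k).add]
        · congr 1
          apply Subtype.ext
          funext n
          simp only [c, BooleanSubalgebra.val_sup, Pi.sup_apply]
          rw [← Finset.sup_union]
          congr 1
          ext i
          simp only [Finset.mem_filter, Finset.mem_union, Finset.mem_range, Set.sup_eq_union,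
            Set.mem_union]
          tauto
        · apply hdisj
          rw [Pi.disjoint_iff]
          intro n
          simp only [c]
          rw [Finset.disjoint_sup_left]
          intro i hi
          rw [Finset.disjoint_sup_right]
          intro j hj
          rw [Finset.mem_filter] at hi hj
          apply had'
          rintro rfl
          exact Set.disjoint_left.mp hst hi.2.1 hj.2.1
      · obtain ⟨K, hK⟩ := (hν k).bdd
        exact ⟨K, fun b => hK _⟩
    obtain ⟨C2, hC2⟩ := nik_set ℕ lam hlam (fun u => ⟨M _, fun k => hM _ _⟩)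
    obtain ⟨i, hi⟩ := exists_nat_gt (C1 + C2)
    have hc_mem : ∀ (s : Set ℕ) n j, j ≤ n → j ∈ s → m j ≤ n → (a j : ℕ → 𝓑) n ≤ c s n := by
      intro s n j hj hjs hmj
      apply Finset.le_sup (f := fun i => (a i : ℕ → 𝓑) n)
      exact Finset.mem_filter.mpr ⟨Finset.mem_range.mpr (by omega), hjs, hmj⟩
    have hc_le : ∀ (s : Set ℕ) n x, (∀ j ∈ s, m j ≤ n → (a j : ℕ → 𝓑) n ≤ x) → c s n ≤ x := by
      intro s n x h
      apply Finset.sup_le
      intro j hj
      replace hj := Finset.mem_filter.mp hj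
      exact h j hj.2.1 hj.2.2
    have hc_ge : ∀ n, m i ≤ n → c {i} n = (a i : ℕ → 𝓑) n := by
      intro n h
      apply le_antisymm
      · apply hc_le
        intro j hj _
        rw [Set.mem_singleton_iff.mp hj]
      · exact hc_mem {i} n i ((hmi i).trans h) rfl h
    have hc_lt : ∀ n, ¬ m i ≤ n → c {i} n = ⊥ := by
      intro n h
      apply le_antisymm
      · apply hc_le
        intro j hj hmj
        rw [Set.mem_singleton_iff.mp hj] at hmj
        exact absurd hmj h
      · exact bot_le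
    have hsplit : a i = (⟨c {i}, hcA {i}⟩ : A) ⊔ Sf (Finset.range (m i)) (a i) := by
      apply Subtype.ext
      funext n
      rw [BooleanSubalgebra.val_sup, Pi.sup_apply]
      change _ = c {i} n ⊔ restr ((Finset.range (m i) : Finset ℕ) : Set ℕ) (a i : ℕ → 𝓑) n
      by_cases h : m i ≤ n
      · have h2 : n ∉ ((Finset.range (m i) : Finset ℕ) : Set ℕ) := by simpa using h
        rw [hc_ge n h, restr_apply_notMem h2]
        simp
      · have h2 : n ∈ ((Finset.range (m i) : Finset ℕ) : Set ℕ) := by simpa using h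
        rw [hc_lt n h, restr_apply_mem h2]
        simp
    have hdd : Disjoint (⟨c {i}, hcA {i}⟩ : A) (Sf (Finset.range (m i)) (a i)) := by
      apply hdisj
      rw [Pi.disjoint_iff]
      intro n
      change Disjoint (c {i} n) (restr ((Finset.range (m i) : Finset ℕ) : Set ℕ)
        (a i : ℕ → 𝓑) n)
      by_cases h : m i ≤ n
      · have h2 : n ∉ ((Finset.range (m i) : Finset ℕ) : Set ℕ) := by simpa using h
        rw [restr_apply_notMem h2]
        exact disjoint_bot_right
      · rw [hc_lt n h]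
        exact disjoint_bot_left
    have h1 := hak i
    have h2 : |ν (k i) (a i)| ≤ C2 + C1 := by
      rw [hsplit, (hν (k i)).add _ _ hdd]
      refine (abs_add_le _ _).trans ?_
      exact add_le_add (hC2 (k i) {i}) (hC1 _ _ _)
    have h3 : 0 ≤ ∑ l ∈ Finset.range i, M (a l) := Finset.sum_nonneg (fun l _ => hM0 _)
    linarith
  · -- not strongly Nikodym
    refine ⟨fun n => {a | ∀ m ≥ n, ∃ K : ℝ, ∀ j, |mu j ((a : ℕ → 𝓑) m)| ≤ K}, ?_, ?_, ?_⟩
    · intro n n' hnn a ha m hm
      exact ha m (le_trans hnn hm)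
    · intro a
      obtain ⟨α, _, hα⟩ := (hAmem _).mp a.2
      obtain ⟨n, hn⟩ := Filter.eventually_atTop.mp hα
      exact ⟨n, fun m hm => hmub _ _ (hn m hm)⟩
    · intro n
      refine ⟨fun k a => mu k ((a : ℕ → 𝓑) n), ?_, ?_, ?_⟩
      · intro k
        refine ⟨?_, ?_⟩
        · intro a b hab
          have h1 := hdisj' _ _ hab
          rw [Pi.disjoint_iff] at h1
          exact (hmu k).add _ _ (h1 n)
        · obtain ⟨K, hK⟩ := (hmu k).bdd
          exact ⟨K, fun a => hK _⟩
      · intro a ha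
        exact ha n le_rfl
      · rintro ⟨K, hK⟩
        apply hmuu
        refine ⟨K, fun j b => ?_⟩
        have := hK j (sg n b)
        simpa [sg, Sf, restr] using this

end

end Pool.Agent.W_MP_bc68d5_lc
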