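import Mathlib
import Pool.Agent.W_MP_bc68d5_lc.Nik

set_option autoImplicit false

namespace Pool.Agent.W_MP_bc68d5_lc

open Set Filter

/-- index set: the `j`-th block has `j` elements -/
abbrev Om : Type := Σ j : ℕ, Fin j

/-- doubled index set -/
abbrev XX : Type := Om × Bool

/-- number of elements of `S` in the `j`-th block -/
noncomputable def cnt (j : ℕ) (S : Set Om) : ℕ := Set.ncard {i : Fin j | (⟨j, i⟩ : Om) ∈ S}

/-- density zero -/
def Null (S : Set Om) : Prop := ∀ m : ℕ, ∀ᶠ j in atTop, m * cnt j S ≤ j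

theorem cnt_mono {j : ℕ} {S T : Set Om} (h : S ⊆ T) : cnt j S ≤ cnt j T :=
  Set.ncard_le_ncard (fun _ hi => h hi) (Set.toFinite _)

theorem cnt_union_le (j : ℕ) (S T : Set Om) : cnt j (S ∪ T) ≤ cnt j S + cnt j T :=
  Set.ncard_union_le _ _

theorem cnt_union {j : ℕ} {S T : Set Om} (h : Disjoint S T) :
    cnt j (S ∪ T) = cnt j S + cnt j T := by
  unfold cnt
  rw [← Set.ncard_union_eq _ (Set.toFinite _) (Set.toFinite _)]
  · rfl
  · rw [Set.disjoint_left]
    intro i hi hi'
    exact Set.disjoint_left.mp h hi hi'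

theorem cnt_le (j : ℕ) (S : Set Om) : cnt j S ≤ j := by
  have := Set.ncard_le_ncard (Set.subset_univ {i : Fin j | (⟨j, i⟩ : Om) ∈ S}) (Set.toFinite _)
  rw [Set.ncard_univ, Nat.card_eq_fintype_card, Fintype.card_fin] at this
  exact this

theorem cnt_univ (j : ℕ) : cnt j Set.univ = j := by
  unfold cnt
  simp [Set.ncard_univ]

theorem cnt_eq_zero {j : ℕ} {S : Set Om} (h : ∀ i : Fin j, (⟨j, i⟩ : Om) ∉ S) : cnt j S = 0 := by
  unfold cnt
  rw [Set.ncard_eq_zero (Set.toFinite _)]
  ext i
  simp [h i]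

theorem notMem_of_cnt_eq_zero {j : ℕ} {S : Set Om} (h : cnt j S = 0) (i : Fin j) :
    (⟨j, i⟩ : Om) ∉ S := by
  unfold cnt at h
  rw [Set.ncard_eq_zero (Set.toFinite _)] at h
  intro hi
  have : i ∈ {i : Fin j | (⟨j, i⟩ : Om) ∈ S} := hi
  rw [h] at this
  exact this

theorem Null.mono {S T : Set Om} (hT : Null T) (h : S ⊆ T) : Null S := by
  intro m
  filter_upwards [hT m] with j hj
  exact (Nat.mul_le_mul_left m (cnt_mono h)).trans hj

theorem Null.union {S T : Set Om} (hS : Null S) (hT : Null T) : Null (S ∪ T) := by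
  intro m
  filter_upwards [hS (2 * m), hT (2 * m)] with j h1 h2
  have h3 := Nat.mul_le_mul_left m (cnt_union_le j S T)
  nlinarith

theorem null_of_bdd {S : Set Om} (J : ℕ) (h : ∀ x ∈ S, x.1 < J) : Null S := by
  intro m
  filter_upwards [Filter.eventually_ge_atTop J] with j hj
  rw [cnt_eq_zero]
  · simp
  · intro i hi
    have := h _ hi
    simp at this
    omega

theorem null_empty : Null ∅ := null_of_bdd 0 (by simp)

theorem null_biUnion_range (A : ℕ → Set Om) (hA : ∀ t, Null (A t)) (T : ℕ) :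
    Null (⋃ t ∈ Finset.range T, A t) := by
  induction T with
  | zero => simpa using null_empty
  | succ T ih =>
    rw [Finset.range_add_one, Finset.set_biUnion_insert]
    exact (hA T).union ih

theorem cnt_biUnion_le (j : ℕ) (A : ℕ → Set Om) (N : ℕ) :
    cnt j (⋃ t ∈ Finset.range N, A t) ≤ ∑ t ∈ Finset.range N, cnt j (A t) := by
  induction N with
  | zero => simp [cnt]
  | succ N ih =>
    rw [Finset.range_add_one, Finset.set_biUnion_insert, Finset.sum_insert (by simp)]
    exact (cnt_union_le _ _ _).trans (Nat.add_le_add_left ih _)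

theorem null_iUnion_fast (A : ℕ → Set Om) (hA : ∀ t, Null (A t))
    (hs : ∀ t j, 2 ^ t * cnt j (A t) ≤ j) : Null (⋃ t, A t) := by
  intro m
  obtain ⟨T, hT⟩ : ∃ T : ℕ, 4 * m ≤ 2 ^ T := ⟨4 * m, Nat.lt_two_pow_self.le⟩
  have h1 : (⋃ t, A t) ⊆ (⋃ t ∈ Finset.range T, A t) ∪ ⋃ t, A (T + t) := by
    intro x hx
    obtain ⟨t, ht⟩ := Set.mem_iUnion.mp hx
    by_cases h : t < T
    · left
      exact Set.mem_biUnion (Finset.mem_coe.mpr (Finset.mem_range.mpr h)) ht
    · right
      refine Set.mem_iUnion.mpr ⟨t - T, ?_⟩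
      have : T + (t - T) = t := by omega
      rwa [this]
  have h2 : ∀ j, 2 ^ T * cnt j (⋃ t, A (T + t)) ≤ 2 * j := by
    intro j
    have h3 : cnt j (⋃ t, A (T + t)) ≤ ∑ t ∈ Finset.range j, cnt j (A (T + t)) := by
      refine le_trans ?_ (cnt_biUnion_le j (fun t => A (T + t)) j)
      apply Set.ncard_le_ncard _ (Set.toFinite _)
      intro i hi
      have hi' : (⟨j, i⟩ : Om) ∈ ⋃ t, A (T + t) := hi
      obtain ⟨t, ht⟩ := Set.mem_iUnion.mp hi'
      have htj : t < j := by
        by_contra hcon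
        push Not at hcon
        have h4 := hs (T + t) j
        have h5 : j < 2 ^ (T + t) :=
          lt_of_le_of_lt (by omega) (Nat.lt_two_pow_self (n := T + t))
        have h6 : cnt j (A (T + t)) = 0 := by
          by_contra h7
          have h8 : 1 ≤ cnt j (A (T + t)) := Nat.one_le_iff_ne_zero.mpr h7
          have := Nat.mul_le_mul_left (2 ^ (T + t)) h8
          omega
        exact notMem_of_cnt_eq_zero h6 i ht
      exact Set.mem_biUnion (Finset.mem_coe.mpr (Finset.mem_range.mpr htj)) ht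
    have h4 : ((∑ t ∈ Finset.range j, cnt j (A (T + t)) : ℕ) : ℝ) ≤ (j : ℝ) / 2 ^ T * 2 := by
      push_cast
      calc ∑ t ∈ Finset.range j, (cnt j (A (T + t)) : ℝ)
          ≤ ∑ t ∈ Finset.range j, (j : ℝ) / 2 ^ T * (1 / 2) ^ t := by
            apply Finset.sum_le_sum
            intro t _
            have h5 : ((2 ^ (T + t) * cnt j (A (T + t)) : ℕ) : ℝ) ≤ (j : ℝ) := by
              exact_mod_cast hs (T + t) j
            push_cast at h5
            rw [pow_add] at h5
            rw [one_div, inv_pow, div_mul_eq_mul_div, le_div_iff₀ (by positivity),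
              ← div_eq_mul_inv, le_div_iff₀ (by positivity)]
            linarith
        _ = (j : ℝ) / 2 ^ T * ∑ t ∈ Finset.range j, (1 / 2 : ℝ) ^ t := by
            rw [Finset.mul_sum]
        _ ≤ (j : ℝ) / 2 ^ T * 2 := by
            apply mul_le_mul_of_nonneg_left (sum_geometric_two_le j)
            positivity
    have h5 : ((2 ^ T * cnt j (⋃ t, A (T + t)) : ℕ) : ℝ) ≤ ((2 * j : ℕ) : ℝ) := by
      push_cast
      have h6 : (cnt j (⋃ t, A (T + t)) : ℝ) ≤ (j : ℝ) / 2 ^ T * 2 :=
        le_trans (by exact_mod_cast h3) h4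
      calc (2 : ℝ) ^ T * (cnt j (⋃ t, A (T + t)) : ℝ) ≤ 2 ^ T * ((j : ℝ) / 2 ^ T * 2) := by
            apply mul_le_mul_of_nonneg_left h6; positivity
        _ = 2 * j := by field_simp
    exact_mod_cast h5
  filter_upwards [null_biUnion_range A hA T (2 * m)] with j hj
  have h3 := (cnt_mono (j := j) h1).trans (cnt_union_le _ _ _)
  have h4 := h2 j
  have h5 : 4 * m * cnt j (⋃ t, A (T + t)) ≤ 2 * j := (Nat.mul_le_mul_right _ hT).trans h4
  have h6 := Nat.mul_le_mul_left m h3
  nlinarith

/-- uniform boundedness on the density ideal -/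
theorem null_unif (lam : ℕ → Set Om → ℝ)
    (hadd : ∀ k A A', Null A → Null A' → Disjoint A A' → lam k (A ∪ A') = lam k A + lam k A')
    (hbdd : ∀ k, ∃ K : ℝ, ∀ A, Null A → |lam k A| ≤ K)
    (hpt : ∀ A, Null A → ∃ K : ℝ, ∀ k, |lam k A| ≤ K) :
    ∃ K : ℝ, ∀ k A, Null A → |lam k A| ≤ K := by
  classical
  have hsub : ∀ A, Null A → ∃ K : ℝ, ∀ k, ∀ S ⊆ A, |lam k S| ≤ K := by
    intro A hA
    have hnS : ∀ S : Set Om, Null (S ∩ A) := fun S => hA.mono Set.inter_subset_right
    obtain ⟨K, hK⟩ := nik_set Om (fun k S => lam k (S ∩ A)) (by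
      intro k
      refine ⟨?_, ?_⟩
      · intro S T hST
        have h1 := hadd k (S ∩ A) (T ∩ A) (hnS S) (hnS T)
          (hST.mono Set.inter_subset_left Set.inter_subset_left)
        change lam k ((S ∪ T) ∩ A) = _
        rw [Set.union_inter_distrib_right, h1]
      · obtain ⟨K, hK⟩ := hbdd k
        exact ⟨K, fun S => hK _ (hnS S)⟩) (by
      intro S
      exact hpt _ (hnS S))
    refine ⟨K, fun k S hS => ?_⟩
    have := hK k S
    rwa [Set.inter_eq_left.mpr hS] at this
  have step1 : ∃ (t : ℕ) (C : ℝ), ∀ k A, Null A → (∀ j, 2 ^ t * cnt j A ≤ j) → |lam k A| ≤ C := by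
    by_contra hcon
    push Not at hcon
    choose kk AA h1 h2 h3 using fun t : ℕ => hcon t (t : ℝ)
    have hN := null_iUnion_fast AA h1 h2
    obtain ⟨K, hK⟩ := hsub _ hN
    obtain ⟨t, ht⟩ := exists_nat_gt K
    have := hK (kk t) (AA t) (Set.subset_iUnion AA t)
    have := h3 t
    linarith
  obtain ⟨t, C, hC⟩ := step1
  have hC0 : 0 ≤ C := (abs_nonneg _).trans (hC 0 ∅ null_empty (by
    intro j; rw [cnt_eq_zero (by simp)]; simp))
  obtain ⟨K0, hK0⟩ := hsub {x | x.1 < 2 ^ t} (null_of_bdd (2 ^ t) (fun x hx => hx))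
  refine ⟨K0 + (2 ^ (t + 1) : ℕ) * C + C, ?_⟩
  intro k A hA
  obtain ⟨j0, hj0⟩ := Filter.eventually_atTop.mp (hA (2 ^ t))
  let Q : ℕ → Set Om := fun q =>
    {x | x ∈ A ∧ 2 ^ t ≤ x.1 ∧ x.1 < j0 ∧ (x.2 : ℕ) / (x.1 / 2 ^ t) = q}
  have hQA : ∀ q, Q q ⊆ A := fun q x hx => hx.1
  have hQs : ∀ q j, 2 ^ t * cnt j (Q q) ≤ j := by
    intro q j
    have h1 : cnt j (Q q) ≤ j / 2 ^ t := by
      have h2 : cnt j (Q q) ≤ (Finset.Ico (q * (j / 2 ^ t)) ((q + 1) * (j / 2 ^ t))).card := by
        unfold cnt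
        rw [← Set.ncard_coe_finset]
        by_cases hw : 2 ^ t ≤ j
        · have hpos : 0 < j / 2 ^ t := Nat.div_pos hw (by positivity)
          apply Set.ncard_le_ncard_of_injOn (fun i : Fin j => (i : ℕ))
          · intro i hi
            have h3 : (i : ℕ) / (j / 2 ^ t) = q := hi.2.2.2
            simp only [Finset.coe_Ico, Set.mem_Ico]
            rw [← h3]
            exact ⟨Nat.div_mul_le_self _ _, by
              rw [mul_comm]; exact Nat.lt_mul_div_succ _ hpos⟩
          · intro i _ i' _ h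
            exact Fin.ext h
        · rw [Set.ncard_eq_zero (Set.toFinite _) |>.mpr]
          · exact Nat.zero_le _
          · ext i
            simp only [Set.mem_ofPred_eq, Set.mem_empty_iff_false, iff_false]
            intro hi
            exact hw hi.2.1
      rw [Nat.card_Ico] at h2
      have h3 : (q + 1) * (j / 2 ^ t) - q * (j / 2 ^ t) = j / 2 ^ t := by
        rw [Nat.add_mul]; omega
      rwa [h3] at h2
    exact (Nat.mul_le_mul_left _ h1).trans (Nat.mul_div_le _ _)
  have hQd : ∀ q q', q ≠ q' → Disjoint (Q q) (Q q') := by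
    intro q q' hqq
    rw [Set.disjoint_left]
    intro x hx hx'
    exact hqq (hx.2.2.2.symm.trans hx'.2.2.2)
  have hUN : ∀ N, |lam k (⋃ q ∈ Finset.range N, Q q)| ≤ N * C := by
    intro N
    induction N with
    | zero =>
      have h0 : lam k ∅ = 0 := by
        have := hadd k ∅ ∅ null_empty null_empty (by simp)
        simp at this
        exact this
      simp [h0]
    | succ N ih =>
      rw [Finset.range_add_one, Finset.set_biUnion_insert, hadd k]
      · refine (abs_add_le _ _).trans ?_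
        have := hC k (Q N) (hA.mono (hQA N)) (hQs N)
        push_cast
        linarith
      · exact hA.mono (hQA N)
      · exact null_biUnion_range Q (fun q => hA.mono (hQA q)) N
      · rw [Set.disjoint_iUnion₂_right]
        intro q hq
        apply hQd
        rw [Finset.mem_range] at hq
        omega
  set Z : Set Om := {x | x ∈ A ∧ x.1 < 2 ^ t} with hZ
  set W : Set Om := {x | x ∈ A ∧ 2 ^ t ≤ x.1 ∧ j0 ≤ x.1} with hW
  have hdec : A = (Z ∪ (⋃ q ∈ Finset.range (2 ^ (t + 1)), Q q)) ∪ W := by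
    ext x
    constructor
    · intro hx
      by_cases h1 : x.1 < 2 ^ t
      · exact Or.inl (Or.inl ⟨hx, h1⟩)
      · by_cases h2 : x.1 < j0
        · refine Or.inl (Or.inr ?_)
          push Not at h1
          have hlt : (x.2 : ℕ) / (x.1 / 2 ^ t) < 2 ^ (t + 1) := by
            have hpos : 0 < x.1 / 2 ^ t := Nat.div_pos h1 (by positivity)
            rw [Nat.div_lt_iff_lt_mul hpos]
            have h3 : (x.2 : ℕ) < x.1 := x.2.2
            have h4 : x.1 < 2 ^ t * (x.1 / 2 ^ t + 1) := Nat.lt_mul_div_succ _ (by positivity)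
            have h5 : 2 ^ t * (x.1 / 2 ^ t + 1) ≤ 2 ^ (t + 1) * (x.1 / 2 ^ t) := by
              rw [pow_succ, mul_assoc]
              apply Nat.mul_le_mul_left
              omega
            omega
          exact Set.mem_biUnion (Finset.mem_coe.mpr (Finset.mem_range.mpr hlt))
            ⟨hx, h1, h2, rfl⟩
        · push Not at h1 h2
          exact Or.inr ⟨hx, h1, h2⟩
    · rintro ((hx | hx) | hx)
      · exact hx.1
      · simp only [Set.mem_iUnion] at hx
        obtain ⟨q, _, hq⟩ := hx
        exact hq.1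
      · exact hx.1
  have hZn : Null Z := hA.mono (fun x hx => hx.1)
  have hWn : Null W := hA.mono (fun x hx => hx.1)
  have hUn : Null (⋃ q ∈ Finset.range (2 ^ (t + 1)), Q q) :=
    null_biUnion_range Q (fun q => hA.mono (hQA q)) _
  have hd1 : Disjoint Z (⋃ q ∈ Finset.range (2 ^ (t + 1)), Q q) := by
    rw [Set.disjoint_iUnion₂_right]
    intro q _
    rw [Set.disjoint_left]
    intro x hx hx'
    exact absurd hx.2 (not_lt.mpr hx'.2.1)
  have hd2 : Disjoint (Z ∪ (⋃ q ∈ Finset.range (2 ^ (t + 1)), Q q)) W := by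
    rw [Set.disjoint_union_left]
    constructor
    · rw [Set.disjoint_left]
      intro x hx hx'
      exact absurd hx.2 (not_lt.mpr hx'.2.1)
    · rw [Set.disjoint_iUnion₂_left]
      intro q _
      rw [Set.disjoint_left]
      intro x hx hx'
      exact absurd hx.2.2.1 (not_lt.mpr hx'.2.2)
  have e1 : lam k A = lam k Z + lam k (⋃ q ∈ Finset.range (2 ^ (t + 1)), Q q) + lam k W := by
    rw [← hadd k _ _ hZn hUn hd1, ← hadd k _ _ (hZn.union hUn) hWn hd2, ← hdec]
  have e2 : |lam k Z| ≤ K0 := hK0 k Z (fun x hx => hx.2)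
  have e3 : |lam k W| ≤ C := by
    apply hC k W hWn
    intro j
    by_cases hj : j0 ≤ j
    · exact (Nat.mul_le_mul_left _ (cnt_mono (fun x hx => hx.1))).trans (hj0 j hj)
    · rw [cnt_eq_zero]
      · simp
      · intro i hi
        exact hj hi.2.2
  have e4 := hUN (2 ^ (t + 1))
  rw [e1]
  have e5 := abs_add_three (lam k Z) (lam k (⋃ q ∈ Finset.range (2 ^ (t + 1)), Q q)) (lam k W)
  linarith

/-- the asymmetric positions of a set -/
def asym (b : Set XX) : Set Om := {x | ¬ ((x, false) ∈ b ↔ (x, true) ∈ b)}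

/-- the algebra of almost symmetric sets -/
def AlgB : BooleanSubalgebra (Set XX) where
  carrier := {b | Null (asym b)}
  supClosed' := by
    intro a ha b hb
    refine (Null.union ha hb).mono ?_
    intro x hx
    simp only [asym, Set.sup_eq_union, Set.mem_union, Set.mem_ofPred_eq] at hx ⊢
    tauto
  infClosed' := by
    intro a ha b hb
    refine (Null.union ha hb).mono ?_
    intro x hx
    simp only [asym, Set.inf_eq_inter, Set.mem_union, Set.mem_inter_iff, Set.mem_ofPred_eq] at hx ⊢
    tauto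
  compl_mem' := by
    intro a ha
    refine Null.mono ha ?_
    intro x hx
    simp only [asym, Set.mem_compl_iff, Set.mem_ofPred_eq] at hx ⊢
    tauto
  bot_mem' := by
    refine null_empty.mono ?_
    intro x hx
    simp [asym] at hx

theorem mem_AlgB {b : Set XX} : b ∈ AlgB ↔ Null (asym b) := Iff.rfl

/-- full cylinder -/
def full (s : Set Om) : Set XX := {x | x.1 ∈ s}

/-- one sided set -/
def half (s : Set Om) (e : Bool) : Set XX := {x | x.1 ∈ s ∧ x.2 = e}

theorem full_mem (s : Set Om) : full s ∈ AlgB := by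
  rw [mem_AlgB]
  refine null_empty.mono ?_
  intro x hx
  simp [asym, full] at hx

theorem half_mem {s : Set Om} (hs : Null s) (e : Bool) : half s e ∈ AlgB := by
  rw [mem_AlgB]
  refine hs.mono ?_
  intro x hx
  simp only [asym, half, Set.mem_ofPred_eq] at hx
  by_contra h
  apply hx
  simp [h]

theorem algB_disjoint {x y : AlgB} : Disjoint x y ↔ Disjoint (x : Set XX) (y : Set XX) := by
  constructor
  · intro h
    rw [disjoint_iff] at h ⊢
    have := congrArg (Subtype.val) h
    simpa using this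
  · intro h
    rw [disjoint_iff] at h ⊢
    apply Subtype.ext
    simpa using h

/-- the algebra of almost symmetric sets has the Nikodym property -/
theorem nik_AlgB : Nik AlgB := by
  classical
  intro ν hν hpt
  have hS : ∃ K : ℝ, ∀ k s, |ν k ⟨full s, full_mem s⟩| ≤ K := by
    apply nik_set Om (fun k s => ν k ⟨full s, full_mem s⟩)
    · intro k
      refine ⟨?_, ?_⟩
      · intro s t hst
        rw [← (hν k).add]
        · congr 1
        · rw [algB_disjoint, Set.disjoint_left]
          intro x hx hx'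
          exact Set.disjoint_left.mp hst hx hx'
      · obtain ⟨K, hK⟩ := (hν k).bdd
        exact ⟨K, fun a => hK _⟩
    · intro s
      exact hpt _
  have hH : ∀ e : Bool, ∃ K : ℝ, ∀ k s, ∀ hs : Null s, |ν k ⟨half s e, half_mem hs e⟩| ≤ K := by
    intro e
    obtain ⟨K, hK⟩ := null_unif
      (fun k s => if h : Null s then ν k ⟨half s e, half_mem h e⟩ else 0) (by
      intro k A A' hA hA' hAA
      simp only [hA, hA', hA.union hA', dite_true]
      rw [← (hν k).add]
      · congr 1
        apply Subtype.ext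
        ext x
        simp only [half, BooleanSubalgebra.val_sup, Set.sup_eq_union, Set.mem_union,
          Set.mem_ofPred_eq]
        tauto
      · rw [algB_disjoint, Set.disjoint_left]
        intro x hx hx'
        exact Set.disjoint_left.mp hAA hx.1 hx'.1) (by
      intro k
      obtain ⟨K, hK⟩ := (hν k).bdd
      refine ⟨K, fun A hA => ?_⟩
      simp only [hA, dite_true]
      exact hK _) (by
      intro A hA
      simp only [hA, dite_true]
      exact hpt _)
    refine ⟨K, fun k s hs => ?_⟩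
    have := hK k s hs
    simpa only [hs, dite_true] using this
  obtain ⟨K1, hK1⟩ := hS
  obtain ⟨K2, hK2⟩ := hH false
  obtain ⟨K3, hK3⟩ := hH true
  refine ⟨K1 + K2 + K3, ?_⟩
  intro k b
  let s1 : Set Om := {x | (x, false) ∈ (b : Set XX) ∧ (x, true) ∈ (b : Set XX)}
  let s2 : Set Om := {x | (x, false) ∈ (b : Set XX) ∧ (x, true) ∉ (b : Set XX)}
  let s3 : Set Om := {x | (x, false) ∉ (b : Set XX) ∧ (x, true) ∈ (b : Set XX)}
  have hb : Null (asym (b : Set XX)) := b.2
  have h2 : Null s2 := hb.mono (by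
    intro x hx
    simp only [asym, Set.mem_ofPred_eq]
    have h1 := hx.1
    have h2 := hx.2
    tauto)
  have h3 : Null s3 := hb.mono (by
    intro x hx
    simp only [asym, Set.mem_ofPred_eq]
    have h1 := hx.1
    have h2 := hx.2
    tauto)
  have hdec : b = ((⟨full s1, full_mem s1⟩ : AlgB) ⊔ ⟨half s2 false, half_mem h2 false⟩) ⊔
      ⟨half s3 true, half_mem h3 true⟩ := by
    apply Subtype.ext
    ext ⟨x, e⟩
    simp only [BooleanSubalgebra.val_sup, Set.sup_eq_union, Set.mem_union, full, half,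
      Set.mem_ofPred_eq, s1, s2, s3]
    cases e <;> simp <;> tauto
  have hd1 : Disjoint (⟨full s1, full_mem s1⟩ : AlgB) ⟨half s2 false, half_mem h2 false⟩ := by
    rw [algB_disjoint, Set.disjoint_left]
    intro x hx hx'
    exact hx'.1.2 hx.2
  have hd2 : Disjoint ((⟨full s1, full_mem s1⟩ : AlgB) ⊔ ⟨half s2 false, half_mem h2 false⟩)
      ⟨half s3 true, half_mem h3 true⟩ := by
    rw [algB_disjoint, Set.disjoint_left]
    rintro x (hx | hx) hx'
    · exact hx'.1.1 hx.1
    · exact hx'.1.1 hx.1.1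
  rw [hdec, (hν k).add _ _ hd2, (hν k).add _ _ hd1]
  refine (abs_add_three _ _ _).trans ?_
  have e1 := hK1 k s1
  have e2 := hK2 k s2 h2
  have e3 := hK3 k s3 h3
  linarith

end Pool.Agent.W_MP_bc68d5_lc
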