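import Mathlib

set_option autoImplicit false

namespace Pool.Agent.W_MP_bc68d5_lc

open Finset

/-- splitting all colour classes of a finite set evenly into `M` parts -/
theorem finite_split {I : Type} [Fintype I] [DecidableEq I] (kap : I → ℕ) (M : ℕ) (hM : 0 < M) :
    ∃ e : I → ℕ, (∀ i, e i < M) ∧ ∀ c q, q < M →
      (univ.filter (fun i => kap i = c)).card / M ≤
        (univ.filter (fun i => kap i = c ∧ e i = q)).card := by
  classical
  let S : ℕ → Finset I := fun c => univ.filter (fun i => kap i = c)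
  have hmem : ∀ i, i ∈ S (kap i) := fun i => by simp [S]
  refine ⟨fun i => (((S (kap i)).equivFin ⟨i, hmem i⟩ : Fin _) : ℕ) % M,
    fun i => Nat.mod_lt _ hM, ?_⟩
  intro c q hq
  let s := (S c).card
  have hlt : ∀ r : Fin (s / M), (r : ℕ) * M + q < s := by
    intro r
    have h1 : (r : ℕ) + 1 ≤ s / M := r.2
    have h2 : ((r : ℕ) + 1) * M ≤ s := (Nat.mul_le_mul_right M h1).trans (Nat.div_mul_le_self s M)
    rw [Nat.add_mul] at h2
    omega
  let g : Fin (s / M) → I := fun r => (((S c).equivFin.symm ⟨(r : ℕ) * M + q, hlt r⟩ : S c) : I)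
  have hginj : Function.Injective g := by
    intro r r' h
    have h1 := (S c).equivFin.symm.injective (Subtype.ext h)
    have h2 : (r : ℕ) * M + q = (r' : ℕ) * M + q := by
      have := congrArg Fin.val h1
      simpa using this
    have h3 : (r : ℕ) * M = (r' : ℕ) * M := by omega
    exact Fin.ext (Nat.eq_of_mul_eq_mul_right hM h3)
  have hcard : (univ.image g).card = s / M := by
    rw [Finset.card_image_of_injective _ hginj]
    simp
  change s / M ≤ _
  rw [← hcard]
  apply Finset.card_le_card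
  intro x hx
  obtain ⟨r, _, rfl⟩ := Finset.mem_image.mp hx
  have hgS : g r ∈ S c := ((S c).equivFin.symm ⟨(r : ℕ) * M + q, hlt r⟩).2
  have hgc : kap (g r) = c := by
    have := hgS
    simp only [S, Finset.mem_filter] at this
    exact this.2
  simp only [Finset.mem_filter, Finset.mem_univ, true_and]
  refine ⟨hgc, ?_⟩
  have key : ∀ c' (h : g r ∈ S c'), c' = c → (((S c').equivFin ⟨g r, h⟩ : Fin _) : ℕ) =
      (r : ℕ) * M + q := by
    rintro c' h rfl
    have : (⟨g r, h⟩ : S c') = (S c').equivFin.symm ⟨(r : ℕ) * M + q, hlt r⟩ := Subtype.ext rfl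
    rw [this, Equiv.apply_symm_apply]
  rw [key (kap (g r)) (hmem (g r)) hgc]
  rw [Nat.add_comm, Nat.add_mul_mod_self_right]
  exact Nat.mod_eq_of_lt hq

/-- correcting a set inside a reservoir so that every colour class becomes balanced and large -/
theorem finite_correct {I : Type} [Fintype I] (al be : I → ℕ) (u v : I → Prop) (E : Set I)
    (m R : ℕ)
    (h : ∀ c < m, 2 * R + Set.ncard {i | al i ≠ be i ∨ ¬ (u i ↔ v i)} ≤
      Set.ncard {i | i ∈ E ∧ al i = c ∧ be i = c}) :
    ∃ u' v' : I → Prop, (∀ i, i ∉ E → ((u' i ↔ u i) ∧ (v' i ↔ v i))) ∧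
      (∀ c < m, Set.ncard {i | al i = c ∧ u' i} = Set.ncard {i | be i = c ∧ v' i}) ∧
      (∀ c < m, R ≤ Set.ncard {i | (al i = c ∧ be i = c) ∧ u' i ∧ v' i} ∧
        R ≤ Set.ncard {i | (al i = c ∧ be i = c) ∧ ¬ u' i ∧ ¬ v' i}) ∧
      Set.ncard {i | ¬ (u' i ↔ v' i)} ≤
        (m + 1) * Set.ncard {i | al i ≠ be i ∨ ¬ (u i ↔ v i)} := by
  classical
  set As : Set I := {i | al i ≠ be i ∨ ¬ (u i ↔ v i)} with hAs
  let Ec : ℕ → Set I := fun c => {i | i ∈ E ∧ al i = c ∧ be i = c}
  let A0 : ℕ → Set I := fun c => {i | i ∉ E ∧ al i = c ∧ u i ∧ ¬ (be i = c ∧ v i)}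
  let A1 : ℕ → Set I := fun c => {i | i ∉ E ∧ be i = c ∧ v i ∧ ¬ (al i = c ∧ u i)}
  have hA01 : ∀ c, (A0 c).ncard + (A1 c).ncard ≤ As.ncard := by
    intro c
    rw [← Set.ncard_union_eq _ (Set.toFinite _) (Set.toFinite _)]
    · apply Set.ncard_le_ncard _ (Set.toFinite _)
      rintro i (hi | hi)
      · obtain ⟨_, h1, h2, h3⟩ := hi
        by_cases hab : al i = be i
        · right
          intro huv
          exact h3 ⟨hab ▸ h1, huv.mp h2⟩
        · left; exact hab
      · obtain ⟨_, h1, h2, h3⟩ := hi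
        by_cases hab : al i = be i
        · right
          intro huv
          exact h3 ⟨hab ▸ h1, huv.mpr h2⟩
        · left; exact hab
    · rw [Set.disjoint_left]
      intro i hi hi'
      exact hi.2.2.2 ⟨hi'.2.1, hi'.2.2.1⟩
  have hex : ∀ c, ∃ T0 T1 T2 : Set I, T0 ⊆ Ec c ∧ T1 ⊆ Ec c ∧ T2 ⊆ Ec c ∧
      Disjoint T0 T1 ∧ Disjoint T0 T2 ∧ Disjoint T1 T2 ∧
      (c < m → T0.ncard = (A1 c).ncard ∧ T1.ncard = (A0 c).ncard ∧ T2.ncard = R ∧
        R ≤ (Ec c \ (T0 ∪ T1 ∪ T2)).ncard) ∧ (¬ c < m → T0 = ∅ ∧ T1 = ∅) := by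
    intro c
    by_cases hc : c < m
    · have hh := h c hc
      have h01 := hA01 c
      change 2 * R + As.ncard ≤ (Ec c).ncard at hh
      obtain ⟨T0, hT0, hT0c⟩ := Set.exists_subset_card_eq (s := Ec c) (n := (A1 c).ncard)
        (by omega)
      have hE1 : (Ec c \ T0).ncard = (Ec c).ncard - T0.ncard :=
        Set.ncard_sdiff hT0 (Set.toFinite _)
      obtain ⟨T1, hT1, hT1c⟩ := Set.exists_subset_card_eq (s := Ec c \ T0) (n := (A0 c).ncard)
        (by omega)
      have hE2 : ((Ec c \ T0) \ T1).ncard = (Ec c \ T0).ncard - T1.ncard :=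
        Set.ncard_sdiff hT1 (Set.toFinite _)
      obtain ⟨T2, hT2, hT2c⟩ := Set.exists_subset_card_eq (s := (Ec c \ T0) \ T1) (n := R)
        (by omega)
      have hE3 : (((Ec c \ T0) \ T1) \ T2).ncard = ((Ec c \ T0) \ T1).ncard - T2.ncard :=
        Set.ncard_sdiff hT2 (Set.toFinite _)
      have hE4 : Ec c \ (T0 ∪ T1 ∪ T2) = ((Ec c \ T0) \ T1) \ T2 := by
        ext i; simp only [Set.mem_sdiff, Set.mem_union]; tauto
      refine ⟨T0, T1, T2, hT0, fun i hi => (hT1 hi).1, fun i hi => (hT2 hi).1.1, ?_, ?_, ?_,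
        fun _ => ⟨hT0c, hT1c, hT2c, ?_⟩, fun h => absurd hc h⟩
      · rw [Set.disjoint_right]
        intro i hi
        exact (hT1 hi).2
      · rw [Set.disjoint_right]
        intro i hi
        exact (hT2 hi).1.2
      · rw [Set.disjoint_right]
        intro i hi
        exact (hT2 hi).2
      · rw [hE4]
        omega
    · refine ⟨∅, ∅, ∅, by simp, by simp, by simp, by simp, by simp, by simp,
        fun h => absurd h hc, fun _ => ⟨rfl, rfl⟩⟩
  choose T0 T1 T2 hT0 hT1 hT2 h01 h02 h12 hTm hTn using hex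
  refine ⟨fun i => (i ∉ E ∧ u i) ∨ (i ∈ T0 (al i) ∨ i ∈ T2 (al i)),
    fun i => (i ∉ E ∧ v i) ∨ (i ∈ T1 (be i) ∨ i ∈ T2 (be i)), ?_, ?_, ?_, ?_⟩
  · intro i hi
    constructor
    · constructor
      · rintro (h | h | h)
        · exact h.2
        · exact absurd (hT0 _ h).1 hi
        · exact absurd (hT2 _ h).1 hi
      · intro h; exact Or.inl ⟨hi, h⟩
    · constructor
      · rintro (h | h | h)
        · exact h.2
        · exact absurd (hT1 _ h).1 hi
        · exact absurd (hT2 _ h).1 hi
      · intro h; exact Or.inl ⟨hi, h⟩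
  · intro c hc
    obtain ⟨hc0, hc1, hc2, _⟩ := hTm c hc
    let Com : Set I := {i | i ∉ E ∧ (al i = c ∧ u i) ∧ (be i = c ∧ v i)}
    have e1 : {i | al i = c ∧ ((i ∉ E ∧ u i) ∨ (i ∈ T0 (al i) ∨ i ∈ T2 (al i)))} =
        ((Com ∪ A0 c) ∪ T0 c) ∪ T2 c := by
      ext i
      simp only [Set.mem_ofPred_eq, Set.mem_union, Com, A0]
      constructor
      · rintro ⟨rfl, h | h | h⟩
        · tauto
        · tauto
        · tauto
      · rintro (((h | h) | h) | h)
        · exact ⟨h.2.1.1, Or.inl ⟨h.1, h.2.1.2⟩⟩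
        · exact ⟨h.2.1, Or.inl ⟨h.1, h.2.2.1⟩⟩
        · have := (hT0 c h).2.1
          subst this
          exact ⟨rfl, Or.inr (Or.inl h)⟩
        · have := (hT2 c h).2.1
          subst this
          exact ⟨rfl, Or.inr (Or.inr h)⟩
    have e2 : {i | be i = c ∧ ((i ∉ E ∧ v i) ∨ (i ∈ T1 (be i) ∨ i ∈ T2 (be i)))} =
        ((Com ∪ A1 c) ∪ T1 c) ∪ T2 c := by
      ext i
      simp only [Set.mem_ofPred_eq, Set.mem_union, Com, A1]
      constructor
      · rintro ⟨rfl, h | h | h⟩
        · tauto
        · tauto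
        · tauto
      · rintro (((h | h) | h) | h)
        · exact ⟨h.2.2.1, Or.inl ⟨h.1, h.2.2.2⟩⟩
        · exact ⟨h.2.1, Or.inl ⟨h.1, h.2.2.1⟩⟩
        · have := (hT1 c h).2.2
          subst this
          exact ⟨rfl, Or.inr (Or.inl h)⟩
        · have := (hT2 c h).2.2
          subst this
          exact ⟨rfl, Or.inr (Or.inr h)⟩
    have f1 : (((Com ∪ A0 c) ∪ T0 c) ∪ T2 c).ncard =
        Com.ncard + (A0 c).ncard + (T0 c).ncard + (T2 c).ncard := by
      rw [Set.ncard_union_eq _ (Set.toFinite _) (Set.toFinite _),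
        Set.ncard_union_eq _ (Set.toFinite _) (Set.toFinite _),
        Set.ncard_union_eq _ (Set.toFinite _) (Set.toFinite _)]
      · rw [Set.disjoint_left]
        intro i hi hi'
        exact hi'.2.2.2 hi.2.2
      · rw [Set.disjoint_left]
        rintro i (hi | hi) hi'
        · exact hi.1 (hT0 c hi').1
        · exact hi.1 (hT0 c hi').1
      · rw [Set.disjoint_left]
        rintro i ((hi | hi) | hi) hi'
        · exact hi.1 (hT2 c hi').1
        · exact hi.1 (hT2 c hi').1
        · exact Set.disjoint_left.mp (h02 c) hi hi'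
    have f2 : (((Com ∪ A1 c) ∪ T1 c) ∪ T2 c).ncard =
        Com.ncard + (A1 c).ncard + (T1 c).ncard + (T2 c).ncard := by
      rw [Set.ncard_union_eq _ (Set.toFinite _) (Set.toFinite _),
        Set.ncard_union_eq _ (Set.toFinite _) (Set.toFinite _),
        Set.ncard_union_eq _ (Set.toFinite _) (Set.toFinite _)]
      · rw [Set.disjoint_left]
        intro i hi hi'
        exact hi'.2.2.2 hi.2.1
      · rw [Set.disjoint_left]
        rintro i (hi | hi) hi'
        · exact hi.1 (hT1 c hi').1
        · exact hi.1 (hT1 c hi').1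
      · rw [Set.disjoint_left]
        rintro i ((hi | hi) | hi) hi'
        · exact hi.1 (hT2 c hi').1
        · exact hi.1 (hT2 c hi').1
        · exact Set.disjoint_left.mp (h12 c) hi hi'
    rw [e1, e2, f1, f2]
    omega
  · intro c hc
    obtain ⟨hc0, hc1, hc2, hc3⟩ := hTm c hc
    constructor
    · rw [← hc2]
      apply Set.ncard_le_ncard _ (Set.toFinite _)
      intro i hi
      have h1 := (hT2 c hi).2.1
      have h2 := (hT2 c hi).2.2
      refine ⟨⟨h1, h2⟩, Or.inr (Or.inr ?_), Or.inr (Or.inr ?_)⟩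
      · rw [h1]; exact hi
      · rw [h2]; exact hi
    · refine hc3.trans ?_
      apply Set.ncard_le_ncard _ (Set.toFinite _)
      intro i hi
      have hi1 := hi.1
      have hi2 := hi.2
      simp only [Set.mem_union, not_or] at hi2
      refine ⟨⟨hi1.2.1, hi1.2.2⟩, ?_, ?_⟩
      · rintro (h | h | h)
        · exact h.1 hi1.1
        · rw [hi1.2.1] at h; exact hi2.1.1 h
        · rw [hi1.2.1] at h; exact hi2.2 h
      · rintro (h | h | h)
        · exact h.1 hi1.1
        · rw [hi1.2.2] at h; exact hi2.1.2 h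
        · rw [hi1.2.2] at h; exact hi2.2 h
  · have hsub : {i | ¬ (((i ∉ E ∧ u i) ∨ (i ∈ T0 (al i) ∨ i ∈ T2 (al i))) ↔
        ((i ∉ E ∧ v i) ∨ (i ∈ T1 (be i) ∨ i ∈ T2 (be i))))} ⊆
        As ∪ ⋃ c ∈ Finset.range m, (T0 c ∪ T1 c) := by
      intro i hi
      by_cases hiE : i ∈ E
      · right
        have hi' : ¬ ((i ∈ T0 (al i) ∨ i ∈ T2 (al i)) ↔ (i ∈ T1 (be i) ∨ i ∈ T2 (be i))) := by
          intro hcon
          apply hi
          constructor
          · rintro (h | h)
            · exact absurd hiE h.1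
            · exact Or.inr (hcon.mp h)
          · rintro (h | h)
            · exact absurd hiE h.1
            · exact Or.inr (hcon.mpr h)
        have key : ∃ c, i ∈ T0 c ∪ T1 c := by
          by_contra hcon
          push Not at hcon
          apply hi'
          constructor
          · rintro (h | h)
            · exact absurd (Or.inl h) (hcon _)
            · have h1 := (hT2 _ h).2.2
              right
              rw [h1]
              exact h
          · rintro (h | h)
            · exact absurd (Or.inr h) (hcon _)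
            · have h1 := (hT2 _ h).2.1
              right
              rw [h1]
              exact h
        obtain ⟨c, hc⟩ := key
        have hcm : c < m := by
          by_contra hcm
          obtain ⟨h1, h2⟩ := hTn c hcm
          rw [h1, h2] at hc
          simp at hc
        exact Set.mem_biUnion (Finset.mem_coe.mpr (Finset.mem_range.mpr hcm)) hc
      · left
        by_contra hcon
        simp only [hAs, Set.mem_ofPred_eq, not_or, not_not] at hcon
        apply hi
        constructor
        · rintro (h | h | h)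
          · exact Or.inl ⟨hiE, hcon.2.mp h.2⟩
          · exact absurd (hT0 _ h).1 hiE
          · exact absurd (hT2 _ h).1 hiE
        · rintro (h | h | h)
          · exact Or.inl ⟨hiE, hcon.2.mpr h.2⟩
          · exact absurd (hT1 _ h).1 hiE
          · exact absurd (hT2 _ h).1 hiE
    refine (Set.ncard_le_ncard hsub (Set.toFinite _)).trans ?_
    refine (Set.ncard_union_le _ _).trans ?_
    have hU : ∀ N, N ≤ m → (⋃ c ∈ Finset.range N, (T0 c ∪ T1 c)).ncard ≤ N * As.ncard := by
      intro N
      induction N with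
      | zero => intro _; simp
      | succ N ih =>
        intro hN
        rw [Finset.range_add_one, Finset.set_biUnion_insert]
        refine (Set.ncard_union_le _ _).trans ?_
        have h1 := ih (by omega)
        have h2 := Set.ncard_union_le (T0 N) (T1 N)
        obtain ⟨hc0, hc1, _, _⟩ := hTm N (by omega)
        have h3 := hA01 N
        rw [Nat.add_mul]
        omega
    have := hU m le_rfl
    rw [Nat.add_mul]
    omega

end Pool.Agent.W_MP_bc68d5_lc
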