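import Mathlib
import Pool.Agent.W_MP_bc68d5_lc.Dens
import Pool.Agent.W_MP_bc68d5_lc.Fin
import Pool.Agent.W_MP_bc68d5_lc.Assembly

set_option autoImplicit false

namespace Pool.Agent.W_MP_bc68d5_lc

open Set Filter

/-- all colour classes `c < m` are balanced and large in almost every block -/
def GoodM (p : XX → ℕ) (m : ℕ) : Prop :=
  (∀ x, p x < m) ∧ ∃ L : ℕ, ∀ᶠ j in atTop, ∀ c < m,
    cnt j {x | p (x, false) = c} = cnt j {x | p (x, true) = c} ∧
    j ≤ L * cnt j {x | p (x, false) = c ∧ p (x, true) = c}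

/-- good colourings -/
def Good (p : XX → ℕ) : Prop :=
  Null {x | p (x, false) ≠ p (x, true)} ∧ ∃ m, GoodM p m

theorem ncard_eq_card_filter {I : Type} [Fintype I] (P : I → Prop) [DecidablePred P] :
    Set.ncard {i | P i} = (Finset.univ.filter P).card := by
  rw [← Set.ncard_coe_finset]
  congr 1
  ext i
  simp

theorem good_split (p : XX → ℕ) (m : ℕ) (hp : GoodM p m) (M : ℕ) (hM : 0 < M) :
    ∃ e : Om → ℕ, (∀ x, e x < M) ∧ ∃ L : ℕ, ∀ᶠ j in atTop, ∀ c < m, ∀ q < M,
      j ≤ L * cnt j {x | e x = q ∧ p (x, false) = c ∧ p (x, true) = c} := by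
  classical
  obtain ⟨hm, L, hL⟩ := hp
  let kap : (j : ℕ) → Fin j → ℕ := fun j i =>
    if p (⟨j, i⟩, false) = p (⟨j, i⟩, true) then p (⟨j, i⟩, false) else m
  choose e he1 he2 using fun j : ℕ => finite_split (kap j) M hM
  refine ⟨fun x => e x.1 x.2, fun x => he1 _ _, 2 * M * L, ?_⟩
  filter_upwards [hL, Filter.eventually_ge_atTop (L * M)] with j hj hjL c hc q hq
  have h1 : (Finset.univ.filter (fun i => kap j i = c)).card =
      cnt j {x | p (x, false) = c ∧ p (x, true) = c} := by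
    unfold cnt
    have : {i : Fin j | (⟨j, i⟩ : Om) ∈ {x : Om | p (x, false) = c ∧ p (x, true) = c}} =
        {i | kap j i = c} := by
      ext i
      simp only [Set.mem_ofPred_eq, kap]
      by_cases h : p (⟨j, i⟩, false) = p (⟨j, i⟩, true)
      · rw [if_pos h, ← h]
        tauto
      · rw [if_neg h]
        constructor
        · rintro ⟨h1, h2⟩
          exact absurd (h1.trans h2.symm) h
        · intro h1
          omega
    rw [this, ncard_eq_card_filter]
  have h2 : (Finset.univ.filter (fun i => kap j i = c ∧ e j i = q)).card =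
      cnt j {x | e x.1 x.2 = q ∧ p (x, false) = c ∧ p (x, true) = c} := by
    unfold cnt
    have : {i : Fin j | (⟨j, i⟩ : Om) ∈
        {x : Om | e x.1 x.2 = q ∧ p (x, false) = c ∧ p (x, true) = c}} =
        {i | kap j i = c ∧ e j i = q} := by
      ext i
      simp only [Set.mem_ofPred_eq, kap]
      by_cases h : p (⟨j, i⟩, false) = p (⟨j, i⟩, true)
      · rw [if_pos h, ← h]
        tauto
      · rw [if_neg h]
        constructor
        · rintro ⟨_, h1, h2⟩
          exact absurd (h1.trans h2.symm) h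
        · intro h1
          omega
    rw [this, ncard_eq_card_filter]
  have h3 := he2 j c q hq
  rw [h1, h2] at h3
  set s := cnt j {x | p (x, false) = c ∧ p (x, true) = c} with hs
  have h4 : j ≤ L * s := (hj c hc).2
  by_cases hL0 : L = 0
  · rw [hL0] at h4
    simp at h4
    rw [h4]
    exact Nat.zero_le _
  have hLpos : 0 < L := Nat.pos_of_ne_zero hL0
  have h5 : M ≤ s := by
    have : L * M ≤ L * s := hjL.trans h4
    exact Nat.le_of_mul_le_mul_left this hLpos
  have h6 : s ≤ 2 * M * (s / M) := by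
    have h7 : s < M * (s / M + 1) := Nat.lt_mul_div_succ _ hM
    have h8 : 1 ≤ s / M := Nat.div_pos h5 hM
    nlinarith
  calc j ≤ L * s := h4
    _ ≤ L * (2 * M * (s / M)) := Nat.mul_le_mul_left _ h6
    _ ≤ L * (2 * M * cnt j {x | e x.1 x.2 = q ∧ p (x, false) = c ∧ p (x, true) = c}) :=
        Nat.mul_le_mul_left _ (Nat.mul_le_mul_left _ h3)
    _ = 2 * M * L * cnt j {x | e x.1 x.2 = q ∧ p (x, false) = c ∧ p (x, true) = c} := by ring

open Classical in
/-- refine a colouring by a set -/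
noncomputable def refine2 (p : XX → ℕ) (c : Set XX) : XX → ℕ :=
  fun x => 2 * p x + if x ∈ c then 1 else 0

theorem refine2_odd (p : XX → ℕ) (c : Set XX) (x : XX) (k : ℕ) :
    refine2 p c x = 2 * k + 1 ↔ p x = k ∧ x ∈ c := by
  unfold refine2
  split_ifs with h
  · constructor
    · intro h1; exact ⟨by omega, h⟩
    · rintro ⟨h1, _⟩; omega
  · constructor
    · intro h1; omega
    · rintro ⟨_, h1⟩; exact absurd h1 h

theorem refine2_even (p : XX → ℕ) (c : Set XX) (x : XX) (k : ℕ) :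
    refine2 p c x = 2 * k ↔ p x = k ∧ x ∉ c := by
  unfold refine2
  split_ifs with h
  · constructor
    · intro h1; omega
    · rintro ⟨_, h1⟩; exact absurd h h1
  · constructor
    · intro h1; exact ⟨by omega, h⟩
    · rintro ⟨h1, _⟩; omega

theorem good_correct (p : XX → ℕ) (m : ℕ) (hnull : Null {x | p (x, false) ≠ p (x, true)})
    (hp : GoodM p m) (E : Set Om)
    (hE : ∃ L : ℕ, ∀ᶠ j in atTop, ∀ c < m,
      j ≤ L * cnt j {x | x ∈ E ∧ p (x, false) = c ∧ p (x, true) = c})
    (b : Set XX) (hb : Null (asym b)) :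
    ∃ c : Set XX, Null (asym c) ∧ (∀ x, x ∉ E → ∀ e, ((x, e) ∈ c ↔ (x, e) ∈ b)) ∧
      Good (refine2 p c) := by
  classical
  obtain ⟨hm, L0, hL0⟩ := hp
  obtain ⟨L', hL'⟩ := hE
  let L : ℕ := L' + 1
  have hLpos : 0 < L := Nat.succ_pos _
  let As : Set Om := {x | p (x, false) ≠ p (x, true) ∨ ¬ ((x, false) ∈ b ↔ (x, true) ∈ b)}
  have hAs : Null As := (hnull.union hb).mono (fun x hx => hx)
  have hH : ∀ᶠ j in atTop, ∀ c < m, 2 * (j / (4 * L)) + Set.ncard {i : Fin j |
      p (⟨j, i⟩, false) ≠ p (⟨j, i⟩, true) ∨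
        ¬ (((⟨j, i⟩, false) : XX) ∈ b ↔ ((⟨j, i⟩, true) : XX) ∈ b)} ≤
      Set.ncard {i : Fin j | i ∈ {i : Fin j | (⟨j, i⟩ : Om) ∈ E} ∧ p (⟨j, i⟩, false) = c ∧
        p (⟨j, i⟩, true) = c} := by
    filter_upwards [hL', hAs (2 * L)] with j h1 h2 c hc
    have h3 : j ≤ L * cnt j {x | x ∈ E ∧ p (x, false) = c ∧ p (x, true) = c} :=
      (h1 c hc).trans (Nat.mul_le_mul_right _ (Nat.le_succ _))
    have h4 : 4 * L * (j / (4 * L)) ≤ j := Nat.mul_div_le _ _
    change 2 * (j / (4 * L)) + cnt j As ≤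
      cnt j {x | x ∈ E ∧ p (x, false) = c ∧ p (x, true) = c}
    apply Nat.le_of_mul_le_mul_left _ hLpos
    nlinarith
  have hex : ∀ j : ℕ, ∃ u' v' : Fin j → Prop,
      (∀ i, i ∉ {i : Fin j | (⟨j, i⟩ : Om) ∈ E} →
        ((u' i ↔ ((⟨j, i⟩, false) : XX) ∈ b) ∧ (v' i ↔ ((⟨j, i⟩, true) : XX) ∈ b))) ∧
      ((∀ c < m, 2 * (j / (4 * L)) + Set.ncard {i : Fin j |
        p (⟨j, i⟩, false) ≠ p (⟨j, i⟩, true) ∨
          ¬ (((⟨j, i⟩, false) : XX) ∈ b ↔ ((⟨j, i⟩, true) : XX) ∈ b)} ≤
        Set.ncard {i : Fin j | i ∈ {i : Fin j | (⟨j, i⟩ : Om) ∈ E} ∧ p (⟨j, i⟩, false) = c ∧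
          p (⟨j, i⟩, true) = c}) →
        (∀ c < m, Set.ncard {i : Fin j | p (⟨j, i⟩, false) = c ∧ u' i} =
          Set.ncard {i : Fin j | p (⟨j, i⟩, true) = c ∧ v' i}) ∧
        (∀ c < m, (j / (4 * L)) ≤
          Set.ncard {i : Fin j | (p (⟨j, i⟩, false) = c ∧ p (⟨j, i⟩, true) = c) ∧ u' i ∧ v' i} ∧
          (j / (4 * L)) ≤ Set.ncard {i : Fin j |
            (p (⟨j, i⟩, false) = c ∧ p (⟨j, i⟩, true) = c) ∧ ¬ u' i ∧ ¬ v' i}) ∧
        Set.ncard {i : Fin j | ¬ (u' i ↔ v' i)} ≤
          (m + 1) * Set.ncard {i : Fin j | p (⟨j, i⟩, false) ≠ p (⟨j, i⟩, true) ∨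
          ¬ (((⟨j, i⟩, false) : XX) ∈ b ↔ ((⟨j, i⟩, true) : XX) ∈ b)}) := by
    intro j
    by_cases h : (∀ c < m, 2 * (j / (4 * L)) + Set.ncard {i : Fin j |
        p (⟨j, i⟩, false) ≠ p (⟨j, i⟩, true) ∨
          ¬ (((⟨j, i⟩, false) : XX) ∈ b ↔ ((⟨j, i⟩, true) : XX) ∈ b)} ≤
        Set.ncard {i : Fin j | i ∈ {i : Fin j | (⟨j, i⟩ : Om) ∈ E} ∧ p (⟨j, i⟩, false) = c ∧
          p (⟨j, i⟩, true) = c})
    · obtain ⟨u', v', h1, h2, h3, h4⟩ := finite_correct
        (fun i : Fin j => p (⟨j, i⟩, false)) (fun i => p (⟨j, i⟩, true))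
        (fun i => ((⟨j, i⟩, false) : XX) ∈ b) (fun i => ((⟨j, i⟩, true) : XX) ∈ b)
        {i : Fin j | (⟨j, i⟩ : Om) ∈ E} m (j / (4 * L)) h
      exact ⟨u', v', h1, fun _ => ⟨h2, h3, h4⟩⟩
    · exact ⟨fun i => ((⟨j, i⟩, false) : XX) ∈ b, fun i => ((⟨j, i⟩, true) : XX) ∈ b,
        fun i _ => ⟨Iff.rfl, Iff.rfl⟩, fun h' => absurd h' h⟩
  choose u v huv1 huv2 using hex
  let c : Set XX := {x | (x.2 = false ∧ u x.1.1 x.1.2) ∨ (x.2 = true ∧ v x.1.1 x.1.2)}
  have hcf : ∀ x : Om, ((x, false) ∈ c ↔ u x.1 x.2) := by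
    intro x
    simp [c]
  have hct : ∀ x : Om, ((x, true) ∈ c ↔ v x.1 x.2) := by
    intro x
    simp [c]
  have hasym : Null (asym c) := by
    intro k
    filter_upwards [hH, hAs (k * (m + 1))] with j h1 h2
    have h3 := (huv2 j h1).2.2
    have h4 : cnt j (asym c) ≤ (m + 1) * cnt j As := by
      refine le_trans (le_of_eq ?_) h3
      unfold cnt
      congr 1
      ext i
      change ¬ _ ↔ ¬ _
      rw [hcf, hct]
    calc k * cnt j (asym c) ≤ k * ((m + 1) * cnt j As) := Nat.mul_le_mul_left _ h4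
      _ = k * (m + 1) * cnt j As := by ring
      _ ≤ j := h2
  refine ⟨c, hasym, ?_, ?_, 2 * m, ?_, 8 * L, ?_⟩
  · rintro ⟨j, i⟩ hx e
    have := huv1 j i hx
    cases e
    · rw [hcf]; exact this.1
    · rw [hct]; exact this.2
  · refine (hnull.union hasym).mono ?_
    intro x hx
    simp only [Set.mem_union, Set.mem_ofPred_eq] at hx ⊢
    by_contra hcon
    push Not at hcon
    apply hx
    have h1 := hcon.2
    unfold refine2
    rw [hcon.1]
    simp only [asym, Set.mem_ofPred_eq, not_not] at h1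
    by_cases h2 : (x, false) ∈ c
    · rw [if_pos h2, if_pos (h1.mp h2)]
    · rw [if_neg h2, if_neg (fun h => h2 (h1.mpr h))]
  · intro x
    have h1 := hm x
    unfold refine2
    split_ifs <;> omega
  · filter_upwards [hH, hL0, Filter.eventually_ge_atTop (4 * L)] with j h1 h2 hj4 c' hc'
    obtain ⟨h3, h4, _⟩ := huv2 j h1
    have hR : j ≤ 8 * L * (j / (4 * L)) := by
      have h5 : j < 4 * L * (j / (4 * L) + 1) := Nat.lt_mul_div_succ _ (by positivity)
      have h6 : 1 ≤ j / (4 * L) := Nat.div_pos hj4 (by positivity)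
      nlinarith
    obtain ⟨k, hk | hk⟩ := Nat.even_or_odd' c'
    · have hkm : k < m := by omega
      have e1 : ∀ e, {x : Om | refine2 p c (x, e) = c'} = {x | p (x, e) = k ∧ (x, e) ∉ c} := by
        intro e
        ext x
        simp only [Set.mem_ofPred_eq]
        rw [hk]
        exact refine2_even p c (x, e) k
      have e2 : {x : Om | refine2 p c (x, false) = c' ∧ refine2 p c (x, true) = c'} =
          {x | (p (x, false) = k ∧ p (x, true) = k) ∧ ¬ u x.1 x.2 ∧ ¬ v x.1 x.2} := by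
        ext x
        simp only [Set.mem_ofPred_eq]
        rw [hk, refine2_even, refine2_even, hcf, hct]
        tauto
      have e3 : ∀ e, cnt j {x : Om | p (x, e) = k} = cnt j {x | p (x, e) = k ∧ (x, e) ∈ c} +
          cnt j {x | p (x, e) = k ∧ (x, e) ∉ c} := by
        intro e
        rw [← cnt_union]
        · congr 1
          ext x
          simp only [Set.mem_ofPred_eq, Set.mem_union]
          tauto
        · rw [Set.disjoint_left]
          intro x hx hx'
          exact hx'.2 hx.2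
      have e4 : cnt j {x : Om | p (x, false) = k ∧ (x, false) ∈ c} =
          cnt j {x : Om | p (x, true) = k ∧ (x, true) ∈ c} := by
        have h5 := h3 k hkm
        have h6 : {x : Om | p (x, false) = k ∧ (x, false) ∈ c} =
            {x : Om | p (x, false) = k ∧ u x.1 x.2} := by
          ext x; simp only [Set.mem_ofPred_eq]; rw [hcf]
        have h7 : {x : Om | p (x, true) = k ∧ (x, true) ∈ c} =
            {x : Om | p (x, true) = k ∧ v x.1 x.2} := by
          ext x; simp only [Set.mem_ofPred_eq]; rw [hct]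
        rw [h6, h7]
        exact h5
      constructor
      · rw [e1, e1]
        have h5 := e3 false
        have h6 := e3 true
        have h7 := (h2 k hkm).1
        omega
      · rw [e2]
        refine hR.trans (Nat.mul_le_mul_left _ ?_)
        exact (h4 k hkm).2
    · have hkm : k < m := by omega
      have e1 : {x : Om | refine2 p c (x, false) = c'} = {x | p (x, false) = k ∧ u x.1 x.2} := by
        ext x
        simp only [Set.mem_ofPred_eq]
        rw [hk, refine2_odd, hcf]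
      have e1' : {x : Om | refine2 p c (x, true) = c'} = {x | p (x, true) = k ∧ v x.1 x.2} := by
        ext x
        simp only [Set.mem_ofPred_eq]
        rw [hk, refine2_odd, hct]
      have e2 : {x : Om | refine2 p c (x, false) = c' ∧ refine2 p c (x, true) = c'} =
          {x | (p (x, false) = k ∧ p (x, true) = k) ∧ u x.1 x.2 ∧ v x.1 x.2} := by
        ext x
        simp only [Set.mem_ofPred_eq]
        rw [hk, refine2_odd, refine2_odd, hcf, hct]
        tauto
      constructor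
      · rw [e1, e1']
        exact h3 k hkm
      · rw [e2]
        refine hR.trans (Nat.mul_le_mul_left _ ?_)
        exact (h4 k hkm).1

/-- poset of good colourings -/
structure GP : Type where
  /-- the colouring -/
  col : XX → ℕ
  /-- it is good -/
  good : Good col

/-- the finite algebra of a colouring -/
def algP (q : GP) : Set AlgB := {b | ∃ S : Set ℕ, (b : Set XX) = q.col ⁻¹' S}

instance : Preorder GP := Preorder.lift algP

theorem algP_mono (q r : GP) (h : q ≤ r) : algP q ⊆ algP r := h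

theorem refine2_le (p : XX → ℕ) (c : Set XX) (hp : Good p) (hr : Good (refine2 p c)) :
    (⟨p, hp⟩ : GP) ≤ ⟨refine2 p c, hr⟩ := by
  change algP _ ⊆ algP _
  rintro b ⟨S, hS⟩
  refine ⟨{n | n / 2 ∈ S}, ?_⟩
  rw [hS]
  ext x
  simp only [Set.mem_preimage, Set.mem_ofPred_eq]
  have : refine2 p c x / 2 = p x := by
    unfold refine2
    split_ifs <;> omega
  rw [this]

theorem mem_algP_refine2 (p : XX → ℕ) (c : AlgB) (hr : Good (refine2 p c)) :
    c ∈ algP ⟨refine2 p c, hr⟩ := by
  refine ⟨{n | n % 2 = 1}, ?_⟩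
  ext x
  simp only [Set.mem_preimage, Set.mem_ofPred_eq]
  unfold refine2
  split_ifs with h
  · constructor
    · intro _; omega
    · intro _; exact h
  · constructor
    · intro h'; exact absurd h' h
    · intro h'; omega

theorem exists_almost_max {B : Type} [BooleanAlgebra B] {ν : B → ℝ} (h : IsMeas ν) :
    ∃ K : ℝ, (∀ a, |ν a| ≤ K) ∧ ∃ b, K / 2 ≤ |ν b| := by
  obtain ⟨K0, hK0⟩ := h.bdd
  have hbdd : BddAbove (range (fun a => |ν a|)) := ⟨K0, by rintro _ ⟨a, rfl⟩; exact hK0 a⟩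
  refine ⟨⨆ a, |ν a|, fun a => le_ciSup hbdd a, ?_⟩
  have h0 : 0 ≤ ⨆ a, |ν a| := (abs_nonneg (ν ⊥)).trans (le_ciSup hbdd ⊥)
  rcases h0.eq_or_lt with h1 | h1
  · exact ⟨⊥, by rw [← h1]; simp⟩
  · obtain ⟨b, hb⟩ := exists_lt_of_lt_ciSup (show (⨆ a, |ν a|) / 2 < ⨆ a, |ν a| by linarith)
    exact ⟨b, hb.le⟩

theorem extension (ν : AlgB → ℝ) (hν : IsMeas ν) (b0 : AlgB) (q : GP) :
    ∃ r, q ≤ r ∧ ∃ c ∈ algP r, (1 / 4 : ℝ) * |ν b0| ≤ |ν c| := by
  classical
  obtain ⟨p, hp⟩ := q
  have hp' := hp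
  obtain ⟨hnull, m, hm⟩ := hp'
  obtain ⟨K, hK, b, hb⟩ := exists_almost_max hν
  obtain ⟨e, he, L, hL⟩ := good_split p m hm 16 (by norm_num)
  have hq : ∃ q < 16, ∀ a : AlgB, (a : Set XX) ⊆ full {x | e x = q} → |ν a| ≤ K / 8 := by
    by_contra hcon
    push Not at hcon
    choose! a ha1 ha2 using hcon
    have h1 := hν.sum_abs_le hK (Finset.range 16) a (by
      intro i hi i' hi' hii
      change Disjoint (a i) (a i')
      rw [algB_disjoint]
      apply Set.disjoint_of_subset (ha1 i (Finset.mem_range.mp (Finset.mem_coe.mp hi)))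
        (ha1 i' (Finset.mem_range.mp (Finset.mem_coe.mp hi')))
      rw [Set.disjoint_left]
      intro x hx hx'
      exact hii ((show e x.1 = i from hx).symm.trans hx'))
    have h2 : ∑ i ∈ Finset.range 16, K / 8 < ∑ i ∈ Finset.range 16, |ν (a i)| := by
      apply Finset.sum_lt_sum_of_nonempty ⟨0, by simp⟩
      intro i hi
      exact ha2 i (Finset.mem_range.mp hi)
    simp at h2
    linarith
  obtain ⟨q, hq16, hq⟩ := hq
  obtain ⟨c, hc1, hc2, hc3⟩ := good_correct p m hnull hm {x | e x = q} ⟨L, by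
    filter_upwards [hL] with j hj c hc
    exact hj c hc q hq16⟩ b b.2
  let c' : AlgB := ⟨c, hc1⟩
  refine ⟨⟨refine2 p c, hc3⟩, refine2_le p c hp hc3, c', mem_algP_refine2 p c' hc3, ?_⟩
  let E : AlgB := ⟨full {x | e x = q}, full_mem _⟩
  have h1 : ν (c' ⊓ E) + ν (c' \ E) = ν c' := hν.inf_add_sdiff _ _
  have h2 : ν (b ⊓ E) + ν (b \ E) = ν b := hν.inf_add_sdiff _ _
  have h3 : c' \ E = b \ E := by
    apply Subtype.ext
    ext ⟨x, s⟩
    simp only [BooleanSubalgebra.val_sdiff, Set.mem_sdiff]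
    by_cases hx : (x, s) ∈ full {x | e x = q}
    · constructor
      · intro h; exact absurd hx h.2
      · intro h; exact absurd hx h.2
    · have := hc2 x hx s
      constructor
      · intro h; exact ⟨this.mp h.1, h.2⟩
      · intro h; exact ⟨this.mpr h.1, h.2⟩
  have h4 : |ν (c' ⊓ E)| ≤ K / 8 := hq _ (fun x hx => hx.2)
  have h5 : |ν (b ⊓ E)| ≤ K / 8 := hq _ (fun x hx => hx.2)
  have h6 : ν b = ν c' - ν (c' ⊓ E) + ν (b ⊓ E) := by rw [h3] at h1; linarith
  have h7 : |ν b| ≤ |ν c'| + |ν (c' ⊓ E)| + |ν (b ⊓ E)| := by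
    rw [h6]
    refine (abs_add_le _ _).trans ?_
    gcongr
    exact abs_sub _ _
  have h8 := hK b0
  linarith

/-- the unbounded sequence of measures -/
noncomputable def muB (j : ℕ) (b : AlgB) : ℝ :=
  (j : ℝ) * ((cnt j {x | (x, false) ∈ (b : Set XX)} : ℝ) -
    (cnt j {x | (x, true) ∈ (b : Set XX)} : ℝ))

theorem abs_muB_le (j : ℕ) (b : AlgB) : |muB j b| ≤ (j : ℝ) * j := by
  unfold muB
  rw [abs_mul, abs_of_nonneg (Nat.cast_nonneg j)]
  apply mul_le_mul_of_nonneg_left _ (Nat.cast_nonneg j)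
  have h1 : (cnt j {x | (x, false) ∈ (b : Set XX)} : ℝ) ≤ j := by exact_mod_cast cnt_le _ _
  have h2 : (cnt j {x | (x, true) ∈ (b : Set XX)} : ℝ) ≤ j := by exact_mod_cast cnt_le _ _
  have h3 : (0 : ℝ) ≤ (cnt j {x | (x, false) ∈ (b : Set XX)} : ℝ) := Nat.cast_nonneg _
  have h4 : (0 : ℝ) ≤ (cnt j {x | (x, true) ∈ (b : Set XX)} : ℝ) := Nat.cast_nonneg _
  rw [abs_le]
  constructor <;> linarith

theorem muB_meas (j : ℕ) : IsMeas (muB j) := by
  refine ⟨?_, ⟨(j : ℝ) * j, fun a => abs_muB_le j a⟩⟩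
  intro a b hab
  rw [algB_disjoint, Set.disjoint_left] at hab
  have key : ∀ s : Bool, cnt j {x | (x, s) ∈ ((a ⊔ b : AlgB) : Set XX)} =
      cnt j {x | (x, s) ∈ (a : Set XX)} + cnt j {x | (x, s) ∈ (b : Set XX)} := by
    intro s
    rw [← cnt_union]
    · rfl
    · rw [Set.disjoint_left]
      intro x hx hx'
      exact hab hx hx'
  unfold muB
  rw [key, key]
  push_cast
  ring

theorem muB_bdd (q : GP) (b : AlgB) (hb : b ∈ algP q) : ∃ K : ℝ, ∀ j, |muB j b| ≤ K := by
  obtain ⟨p, hp⟩ := q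
  obtain ⟨S, hS⟩ := hb
  obtain ⟨_, m, hm, L, hL⟩ := hp
  obtain ⟨j0, hj0⟩ := Filter.eventually_atTop.mp hL
  refine ⟨(j0 : ℝ) * j0, ?_⟩
  intro j
  by_cases hj : j0 ≤ j
  · have key : ∀ N ≤ m, cnt j {x : Om | p (x, false) ∈ S ∧ p (x, false) < N} =
        cnt j {x : Om | p (x, true) ∈ S ∧ p (x, true) < N} := by
      intro N
      induction N with
      | zero => intro _; simp
      | succ N ih =>
        intro hN
        have h1 := ih (by omega)
        have h2 := (hj0 j hj N (by omega)).1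
        by_cases hNS : N ∈ S
        · have e : ∀ s, cnt j {x : Om | p (x, s) ∈ S ∧ p (x, s) < N + 1} =
              cnt j {x : Om | p (x, s) ∈ S ∧ p (x, s) < N} + cnt j {x : Om | p (x, s) = N} := by
            intro s
            rw [← cnt_union]
            · congr 1
              ext x
              simp only [Set.mem_ofPred_eq, Set.mem_union]
              constructor
              · rintro ⟨h3, h4⟩
                rcases Nat.lt_succ_iff_lt_or_eq.mp h4 with h | h
                · exact Or.inl ⟨h3, h⟩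
                · exact Or.inr h
              · rintro (h | h)
                · exact ⟨h.1, by omega⟩
                · exact ⟨h ▸ hNS, by omega⟩
            · rw [Set.disjoint_left]
              intro x hx hx'
              have h3 : p (x, s) < N := hx.2
              have h4 : p (x, s) = N := hx'
              omega
          rw [e, e, h1, h2]
        · have e : ∀ s, {x : Om | p (x, s) ∈ S ∧ p (x, s) < N + 1} =
              {x : Om | p (x, s) ∈ S ∧ p (x, s) < N} := by
            intro s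
            ext x
            simp only [Set.mem_ofPred_eq]
            constructor
            · rintro ⟨h3, h4⟩
              rcases Nat.lt_succ_iff_lt_or_eq.mp h4 with h | h
              · exact ⟨h3, h⟩
              · exact absurd (h ▸ h3) hNS
            · rintro ⟨h3, h4⟩
              exact ⟨h3, by omega⟩
          rw [e, e, h1]
    have e : ∀ s, {x : Om | (x, s) ∈ (b : Set XX)} = {x : Om | p (x, s) ∈ S ∧ p (x, s) < m} := by
      intro s
      rw [hS]
      ext x
      simp only [Set.mem_ofPred_eq, Set.mem_preimage]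
      exact ⟨fun h => ⟨h, hm _⟩, fun h => h.1⟩
    have : muB j b = 0 := by
      unfold muB
      rw [e, e, key m le_rfl]
      simp
    rw [this, abs_zero]
    positivity
  · push Not at hj
    refine (abs_muB_le j b).trans ?_
    have : (j : ℝ) ≤ j0 := by exact_mod_cast hj.le
    apply mul_self_le_mul_self (Nat.cast_nonneg _) this

theorem muB_unbdd : ¬ ∃ K : ℝ, ∀ j b, |muB j b| ≤ K := by
  rintro ⟨K, hK⟩
  obtain ⟨j, hj⟩ := exists_nat_gt (max K 1)
  have hb : Null {x : Om | x.1 = j} := null_of_bdd (j + 1) (by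
    intro x hx
    have : x.1 = j := hx
    omega)
  have h := hK j ⟨half {x | x.1 = j} false, half_mem hb false⟩
  have e1 : cnt j {x | (x, false) ∈ half {x : Om | x.1 = j} false} = j := by
    have h3 : cnt j {x | (x, false) ∈ half {x : Om | x.1 = j} false} = cnt j Set.univ := by
      unfold cnt
      have : {i : Fin j | (⟨j, i⟩ : Om) ∈ {x | (x, false) ∈ half {x : Om | x.1 = j} false}} =
          {i : Fin j | (⟨j, i⟩ : Om) ∈ (Set.univ : Set Om)} := by
        ext i
        simp [half]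
      rw [this]
    rw [h3, cnt_univ]
  have e2 : cnt j {x | (x, true) ∈ half {x : Om | x.1 = j} false} = 0 := by
    apply cnt_eq_zero
    intro i hi
    simp [half] at hi
  unfold muB at h
  rw [e1, e2] at h
  simp only [Nat.cast_zero, sub_zero] at h
  rw [abs_of_nonneg (by positivity)] at h
  have h1 : K < j := (le_max_left _ _).trans_lt hj
  have h2 : (1 : ℝ) < j := (le_max_right _ _).trans_lt hj
  nlinarith

theorem good_zero : Good (fun _ => 0) := by
  refine ⟨null_empty.mono (by intro x hx; simp at hx), 1, by simp, 1, ?_⟩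
  refine Filter.Eventually.of_forall ?_
  intro j c hc
  have : c = 0 := by omega
  subst this
  simp [cnt_univ]

theorem card_GP (hD : Diamond) : Cardinal.mk GP ≤ Cardinal.aleph 1 := by
  refine le_trans ?_ (continuum_le_of_diamond hD)
  have h1 : Cardinal.mk GP ≤ Cardinal.mk (XX → ℕ) :=
    Cardinal.mk_le_of_injective (f := fun q : GP => q.col) (by
      rintro ⟨p, hp⟩ ⟨p', hp'⟩ h
      simp only at h
      subst h
      rfl)
  refine h1.trans ?_
  rw [← Cardinal.power_def, Cardinal.mk_nat]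
  have h2 : Cardinal.mk XX ≤ Cardinal.aleph0 := Cardinal.mk_le_aleph0
  calc Cardinal.aleph0 ^ Cardinal.mk XX ≤ Cardinal.aleph0 ^ Cardinal.aleph0 :=
        Cardinal.power_le_power_left Cardinal.aleph0_ne_zero h2
    _ = Cardinal.continuum := Cardinal.aleph0_power_aleph0

/-- Under diamond there is a Boolean algebra with the Nikodym property but without the strong
Nikodym property. -/
theorem nikodym_not_strong (hD : Diamond) :
    ∃ (B : Type) (_ : BooleanAlgebra B), Nik B ∧
      ∃ D : ℕ → Set B, Monotone D ∧ (∀ a, ∃ n, a ∈ D n) ∧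
        ∀ n, ∃ μ : ℕ → B → ℝ, (∀ k, IsMeas (μ k)) ∧
          (∀ a ∈ D n, ∃ K : ℝ, ∀ k, |μ k a| ≤ K) ∧ ¬ ∃ K : ℝ, ∀ k a, |μ k a| ≤ K := by
  refine assembly (𝓑 := AlgB) hD nik_AlgB (F := GP) ⟨fun _ => 0, good_zero⟩ (card_GP hD)
    algP algP_mono ?_ ?_ ?_ muB muB_meas muB_bdd muB_unbdd (1 / 4) (by norm_num) extension
  · rintro q a b ⟨S, hS⟩ ⟨T, hT⟩
    refine ⟨S ∪ T, ?_⟩
    rw [BooleanSubalgebra.val_sup, hS, hT]
    rfl
  · rintro q a ⟨S, hS⟩
    refine ⟨Sᶜ, ?_⟩
    rw [BooleanSubalgebra.val_compl, hS]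
    rfl
  · intro q
    exact ⟨∅, rfl⟩

end Pool.Agent.W_MP_bc68d5_lc
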